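import Pool.Agent.H.MP_456268_al.D

set_option autoImplicit false

namespace Pool.Agent.H.MP_84bb83_al

open Function Pointwise Pool.Agent.H.MP_4f47f1_al Pool.Agent.H.MP_44c8f1_al
  Pool.Agent.H.MP_58728c_al Pool.Agent.H.MP_456268_al

lemma bkw {Y : Cl} (hY : Phi Y) {G K Q : Type} [Group G] [Group K] [Group Q] (hG : Y G)
    (A : Subgroup G) [hA : A.Normal] (f : G →* K) (hf : Surjective f) (θ : G → K → Q)
    (h1 : ∀ a ∈ A, ∀ b ∈ A, θ (a * b) = θ a * θ b)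
    (h2 : ∀ g, ∀ a ∈ A, ∀ x, θ (g * a * g⁻¹) x = θ a ((f g)⁻¹ * x)) :
    ∃ S : Subgroup (Wr Q K), Y S ∧ (∀ k, RegularWreathProduct.inl k ∈ S) ∧
      ∀ a ∈ A, bs Q K (θ a) ∈ S := by
  have h0 : θ 1 = 1 := by
    have := h1 1 A.one_mem 1 A.one_mem
    rw [mul_one] at this
    exact left_eq_mul.1 this
  let φ : Gt A →* Wr Q K := MonoidHom.mk' (fun x => ⟨θ (x.1.1 * x.1.2⁻¹), f x.1.2⟩) (by
    rintro ⟨⟨a, b⟩, h⟩ ⟨⟨c, d⟩, h'⟩
    have e : a * c * (b * d)⁻¹ = a * b⁻¹ * (b * (c * d⁻¹) * b⁻¹) := by group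
    ext x
    · show θ (a * c * (b * d)⁻¹) x = θ (a * b⁻¹) x * θ (c * d⁻¹) ((f b)⁻¹ * x)
      rw [e, h1 _ h _ (hA.conj_mem _ h' b), Pi.mul_apply, h2 b _ h']
    · exact map_mul f b d)
  refine ⟨φ.range, hY.qr ((MonoidHom.fst _ _).comp (Gt A).subtype)
    ((MonoidHom.snd _ _).comp (Gt A).subtype) φ.rangeRestrict
    (fun b => ⟨⟨(b, b), show b * b⁻¹ ∈ A by simp⟩, rfl⟩)
    (fun b => ⟨⟨(b, b), show b * b⁻¹ ∈ A by simp⟩, rfl⟩) φ.rangeRestrict_surjective hG hG ?_,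
    fun k => ?_, fun a ha => ⟨el A a ha, ?_⟩⟩
  · rintro ⟨⟨a, b⟩, h⟩ ⟨e1, e2⟩
    have : (⟨(a, b), h⟩ : Gt A) = 1 := Subtype.ext (Prod.ext e1 e2)
    rw [this]; exact Subgroup.one_mem _
  · obtain ⟨b, rfl⟩ := hf k
    refine ⟨⟨(b, b), show b * b⁻¹ ∈ A by simp⟩, ?_⟩
    ext x
    · show θ (b * b⁻¹) x = 1
      simp [h0]
    · rfl
  · ext x
    · show θ (a * 1⁻¹) x = θ a x
      simp
    · exact map_one f

lemma msup {F : Cl} (hF : Phi F) (hs : Sat F) {E Q : Type} [Group E] [Finite E] [Group Q]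
    (π : E →* Q) (hπ : Surjective π) (hQ : F Q) :
    ∃ S : Subgroup E, Surjective (π.comp S.subtype) ∧ F S := by
  obtain ⟨S, hS, hmin⟩ := (wellFounded_lt (α := Subgroup E)).has_min
    {S : Subgroup E | Surjective (π.comp S.subtype)} ⟨⊤, fun q => by
      obtain ⟨e, rfl⟩ := hπ q
      exact ⟨⟨e, trivial⟩, rfl⟩⟩
  refine ⟨S, hS, hs S (hF.qr _ _ (QuotientGroup.mk' _) hS hS (QuotientGroup.mk'_surjective _)
    hQ hQ ?_)⟩
  rw [inf_idem, QuotientGroup.ker_mk']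
  refine le_iInf₂ fun U hU => ?_
  by_contra hle
  have htop : U ⊔ (π.comp S.subtype).ker = ⊤ := hU.2 _ (left_lt_sup.2 hle)
  refine hmin (U.map S.subtype) (fun q => ?_) (lt_of_le_of_ne (Subgroup.map_subtype_le _) fun h => ?_)
  · obtain ⟨s, rfl⟩ := hS q
    have : s ∈ (U : Set S) * ((π.comp S.subtype).ker : Set S) := by
      rw [← Subgroup.mul_normal, htop]; trivial
    obtain ⟨u, hu, k, hk, rfl⟩ := this
    refine ⟨⟨u, Subgroup.mem_map_of_mem _ hu⟩, ?_⟩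
    show _ = (π.comp S.subtype) (u * k)
    rw [map_mul, hk, mul_one]; rfl
  · refine hU.1 (eq_top_iff.2 fun s _ => ?_)
    obtain ⟨u, hu, e⟩ : (s : E) ∈ U.map S.subtype := h.symm ▸ s.2
    rwa [← Subtype.ext e]

@[ext] structure Hs (p : ℕ) where
  a : ZMod p
  b : ZMod p
  c : ZMod p

instance (p : ℕ) : Group (Hs p) where
  mul x y := ⟨x.a + y.a, x.b + y.b, x.c + y.c + x.a * y.b⟩
  one := ⟨0, 0, 0⟩
  inv x := ⟨-x.a, -x.b, -x.c + x.a * x.b⟩
  mul_assoc x y z := by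
    ext
    · exact add_assoc _ _ _
    · exact add_assoc _ _ _
    · show x.c + y.c + x.a * y.b + z.c + (x.a + y.a) * z.b =
        x.c + (y.c + z.c + y.a * z.b) + x.a * (y.b + z.b)
      ring
  one_mul x := by
    ext
    · exact zero_add _
    · exact zero_add _
    · show 0 + x.c + 0 * x.b = x.c
      ring
  mul_one x := by
    ext
    · exact add_zero _
    · exact add_zero _
    · show x.c + 0 + x.a * 0 = x.c
      ring
  inv_mul_cancel x := by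
    ext
    · exact neg_add_cancel _
    · exact neg_add_cancel _
    · show -x.c + x.a * x.b + x.c + -x.a * x.b = 0
      ring

@[simp] lemma mul_a {p : ℕ} (x y : Hs p) : (x * y).a = x.a + y.a := rfl
@[simp] lemma mul_b {p : ℕ} (x y : Hs p) : (x * y).b = x.b + y.b := rfl
@[simp] lemma mul_c {p : ℕ} (x y : Hs p) : (x * y).c = x.c + y.c + x.a * y.b := rfl
@[simp] lemma inv_a {p : ℕ} (x : Hs p) : (x⁻¹).a = -x.a := rfl
@[simp] lemma inv_b {p : ℕ} (x : Hs p) : (x⁻¹).b = -x.b := rfl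
@[simp] lemma inv_c {p : ℕ} (x : Hs p) : (x⁻¹).c = -x.c + x.a * x.b := rfl

instance (p : ℕ) [NeZero p] : Finite (Hs p) :=
  Finite.of_injective (fun x : Hs p => (x.a, x.b, x.c)) fun x y h => by
    simp only [Prod.mk.injEq] at h
    exact Hs.ext h.1 h.2.1 h.2.2

def pa (p : ℕ) : Hs p →* Zc p := MonoidHom.mk' (fun x => Multiplicative.ofAdd x.a) fun _ _ => rfl
def pb (p : ℕ) : Hs p →* Zc p := MonoidHom.mk' (fun x => Multiplicative.ofAdd x.b) fun _ _ => rfl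

def fb {Q K : Type} [Group Q] [Group K] (S S' : Subgroup (Wr Q K)) : Subgroup (Wr Q K × Wr Q K) :=
  S.prod S' ⊓ MonoidHom.eqLocus (RegularWreathProduct.rightHom.comp (MonoidHom.fst _ _))
    (RegularWreathProduct.rightHom.comp (MonoidHom.snd _ _))

lemma mem_fb {Q K : Type} [Group Q] [Group K] {S S' : Subgroup (Wr Q K)} (x : Wr Q K × Wr Q K) :
    x ∈ fb S S' ↔ (x.1 ∈ S ∧ x.2 ∈ S') ∧ x.1.right = x.2.right := Iff.rfl

lemma fb_mem {Y : Cl} (hY : Phi Y) {Q K : Type} [Group Q] [Group K] {S S' : Subgroup (Wr Q K)}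
    (h1 : Y S) (h2 : ∀ k, RegularWreathProduct.inl k ∈ S) (h3 : Y S')
    (h4 : ∀ k, RegularWreathProduct.inl k ∈ S') : Y (fb S S') := by
  refine hY.qr (((MonoidHom.fst _ _).comp (fb S S').subtype).codRestrict S fun x => x.2.1.1)
    (((MonoidHom.snd _ _).comp (fb S S').subtype).codRestrict S' fun x => x.2.1.2)
    (MonoidHom.id _) ?_ ?_ surjective_id h1 h3 ?_
  · rintro ⟨w, hw⟩
    exact ⟨⟨(w, RegularWreathProduct.inl w.right), (mem_fb _).2 ⟨⟨hw, h4 _⟩, rfl⟩⟩, rfl⟩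
  · rintro ⟨w, hw⟩
    exact ⟨⟨(RegularWreathProduct.inl w.right, w), (mem_fb _).2 ⟨⟨h2 _, hw⟩, rfl⟩⟩, rfl⟩
  · rintro ⟨⟨a, b⟩, h⟩ ⟨e1, e2⟩
    exact Subtype.ext (Prod.ext (congrArg Subtype.val e1) (congrArg Subtype.val e2))

lemma good_sup {Y : Cl} (hY : Phi Y) {Q K : Type} [CommGroup Q] [Group K] {S S' : Subgroup (Wr Q K)}
    (h1 : Y S) (h2 : ∀ k, RegularWreathProduct.inl k ∈ S) (h3 : Y S')
    (h4 : ∀ k, RegularWreathProduct.inl k ∈ S') :
    ∃ U : Subgroup (Wr Q K), Y U ∧ S ≤ U ∧ S' ≤ U := by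
  let φ : fb S S' →* Wr Q K := MonoidHom.mk' (fun x => ⟨x.1.1.left * x.1.2.left, x.1.1.right⟩) (by
    rintro ⟨⟨a, b⟩, h⟩ ⟨⟨c, d⟩, h'⟩
    have e : a.right = b.right := ((mem_fb _).1 h).2
    ext x
    · simp [e, mul_mul_mul_comm]
    · simp)
  refine ⟨φ.range, hY.2.1 _ _ _ φ.rangeRestrict_surjective (fb_mem hY h1 h2 h3 h4), fun w hw => ?_,
    fun w hw => ?_⟩
  · refine ⟨⟨(w, RegularWreathProduct.inl w.right), (mem_fb _).2 ⟨⟨hw, h4 _⟩, rfl⟩⟩, ?_⟩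
    ext <;> simp [φ]
  · refine ⟨⟨(RegularWreathProduct.inl w.right, w), (mem_fb _).2 ⟨⟨h2 _, hw⟩, rfl⟩⟩, ?_⟩
    ext <;> simp [φ]

def vv {p : ℕ} {K : Type} [Group K] (v : K → ZMod p) : Wr (Zc p) K :=
  bs _ K fun x => Multiplicative.ofAdd (v x)

lemma good_mul {Y : Cl} (hY : Phi Y) (hs : Sat Y) {p : ℕ} [NeZero p] {K : Type} [Group K] [Finite K]
    {S : Subgroup (Wr (Zc p) K)} (h1 : Y S) (h2 : ∀ k, RegularWreathProduct.inl k ∈ S) :
    ∃ U : Subgroup (Wr (Zc p) K), Y U ∧ (∀ k, RegularWreathProduct.inl k ∈ U) ∧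
      ∀ u v, vv u ∈ S → vv v ∈ S → vv (u * v) ∈ U := by
  let π0 : Wr (Hs p) K →* Wr (Zc p) K × Wr (Zc p) K := (wmap K (pa p)).prod (wmap K (pb p))
  let E := (fb S S).comap π0
  let π : E →* fb S S := (π0.comp E.subtype).codRestrict _ fun x => x.2
  have hπ : Surjective π := by
    rintro ⟨⟨a, b⟩, h⟩
    have e : a.right = b.right := ((mem_fb _).1 h).2
    have : π0 ⟨fun x => ⟨(a.left x).toAdd, (b.left x).toAdd, 0⟩, a.right⟩ = (a, b) := by
      refine Prod.ext rfl ?_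
      ext
      · rfl
      · exact e
    exact ⟨⟨_, show π0 _ ∈ fb S S from this ▸ h⟩, Subtype.ext this⟩
  obtain ⟨M, m1, m2⟩ := msup hY hs π hπ (fb_mem hY h1 h2 h1 h2)
  have hk : ∀ a : M, a ∈ (π.comp M.subtype).ker →
      a.1.1.right = 1 ∧ ∀ x, (a.1.1.left x).a = 0 ∧ (a.1.1.left x).b = 0 := fun a ha => by
    have e : π0 a.1.1 = 1 := congrArg Subtype.val ha
    exact ⟨congrArg (fun w => w.1.right) e, fun x => ⟨congrArg (fun w => (w.1.left x).toAdd) e,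
      congrArg (fun w => (w.2.left x).toAdd) e⟩⟩
  obtain ⟨U, u1, u2, u3⟩ := bkw hY m2 (π.comp M.subtype).ker
    (RegularWreathProduct.rightHom.comp (E.subtype.comp M.subtype)) (fun k => by
      obtain ⟨m, hm⟩ := m1 ⟨(RegularWreathProduct.inl k, RegularWreathProduct.inl k),
        (mem_fb _).2 ⟨⟨h2 _, h2 _⟩, rfl⟩⟩
      exact ⟨m, congrArg (fun w => w.1.1.right) hm⟩)
    (fun m x => Multiplicative.ofAdd (m.1.1.left x).c) (fun a ha b hb => by
      funext x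
      simp [(hk a ha).1, (hk a ha).2, ofAdd_add]) (fun g a ha x => by
      congr 1
      simp [(hk a ha).1, (hk a ha).2]
      ring)
  refine ⟨U, u1, u2, fun u v hu hv => ?_⟩
  obtain ⟨m, hm⟩ := m1 ⟨(vv u, 1), (mem_fb _).2 ⟨⟨hu, S.one_mem⟩, rfl⟩⟩
  obtain ⟨n, hn⟩ := m1 ⟨(1, vv v), (mem_fb _).2 ⟨⟨S.one_mem, hv⟩, rfl⟩⟩
  have e1 : m.1.1.right = 1 := congrArg (fun w => w.1.1.right) hm
  have e2 : n.1.1.right = 1 := congrArg (fun w => w.1.1.right) hn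
  have e3 : ∀ x, (m.1.1.left x).a = u x := fun x => congrArg (fun w => (w.1.1.left x).toAdd) hm
  have e4 : ∀ x, (m.1.1.left x).b = 0 := fun x => congrArg (fun w => (w.1.2.left x).toAdd) hm
  have e5 : ∀ x, (n.1.1.left x).a = 0 := fun x => congrArg (fun w => (w.1.1.left x).toAdd) hn
  have e6 : ∀ x, (n.1.1.left x).b = v x := fun x => congrArg (fun w => (w.1.2.left x).toAdd) hn
  have := u3 (m * n * m⁻¹ * n⁻¹) (by
    rw [MonoidHom.mem_ker, map_mul, map_mul, map_mul, map_inv, map_inv, hm, hn]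
    apply Subtype.ext
    simp)
  convert this using 1
  rw [vv]
  congr 1
  funext x
  congr 1
  simp [e1, e2, e3, e4, e5, e6]
  ring

lemma exists_add {p : ℕ} (hp : p.Prime) {V : Type} [AddCommGroup V] (he : ∀ a : V, p • a = 0)
    (u : V) (hu : u ≠ 0) : ∃ l : V →+ ZMod p, l u ≠ 0 := by
  have := Fact.mk hp
  have key : ∀ [Module (ZMod p) V], ∃ l : V →+ ZMod p, l u ≠ 0 := by
    intro _
    have := (Module.forall_dual_apply_eq_zero_iff (ZMod p) u).not.2 hu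
    push Not at this
    obtain ⟨φ, hφ⟩ := this
    exact ⟨φ.toAddMonoidHom, hφ⟩
  exact @key (AddCommGroup.zmodModule he)

lemma exists_char {p : ℕ} (hp : p.Prime) {A : Type} [Group A] (hc : ∀ a b : A, a * b = b * a)
    (he : ∀ a : A, a ^ p = 1) (u : A) (hu : u ≠ 1) : ∃ l : A →* Zc p, l u ≠ 1 := by
  let _ : CommGroup A := { (inferInstance : Group A) with mul_comm := hc }
  obtain ⟨φ, hφ⟩ := exists_add hp (V := Additive A) (fun x => he x.toMul) (Additive.ofMul u) hu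
  exact ⟨MonoidHom.mk' (fun a => Multiplicative.ofAdd (φ (Additive.ofMul a))) fun a b => by
    rw [← ofAdd_add, ← map_add]; rfl, hφ⟩

theorem lemT (F : NF) (hs : Sat F.mem) {p : ℕ} (hp : p.Prime) {G K : Type} [Group G] [Group K]
    (hG : F.mem G) (A : Subgroup G) [hA : A.Normal] (hb : A ≠ ⊥)
    (hc : ∀ a ∈ A, ∀ b ∈ A, a * b = b * a) (he : ∀ a ∈ A, a ^ p = 1) (f : G →* K)
    (hf : Surjective f) (h : Subgroup.centralizer (A : Set G) ≤ f.ker) : F.mem (Wr (Zc p) K) := by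
  classical
  have := Fact.mk hp
  have := F.ok.1 G hG
  set C := Subgroup.centralizer (A : Set G) with hC
  have : C.Normal := Subgroup.normal_centralizer
  refine wr_mono F mul_comm (QuotientGroup.lift C f h) (lift_surj _ _ _ hf) ?_
  choose σ hσ using QuotientGroup.mk'_surjective C
  have good : ∀ l : A →* Zc p, ∃ S : Subgroup (Wr (Zc p) (G ⧸ C)), F.mem S ∧
      (∀ k, RegularWreathProduct.inl k ∈ S) ∧ ∀ a : A,
      vv (fun x => (l ⟨(σ x)⁻¹ * a * (σ x)⁻¹⁻¹, hA.conj_mem _ a.2 _⟩).toAdd) ∈ S := fun l => by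
    obtain ⟨S, s1, s2, s3⟩ := bkw F.ok hG A (QuotientGroup.mk' C) (QuotientGroup.mk'_surjective _)
      (fun a x => if ha : a ∈ A then l ⟨(σ x)⁻¹ * a * (σ x)⁻¹⁻¹, hA.conj_mem _ ha _⟩ else 1)
      (fun a ha b hb => by
        funext x
        rw [Pi.mul_apply, dif_pos ha, dif_pos hb, dif_pos (A.mul_mem ha hb), ← map_mul]
        congr 1
        apply Subtype.ext
        simp [mul_assoc]) (fun g a ha x => by
        rw [dif_pos ha, dif_pos (hA.conj_mem _ ha g)]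
        congr 1
        apply Subtype.ext
        set y := σ ((QuotientGroup.mk' C g)⁻¹ * x) with hy
        have e : g⁻¹ * σ x * y⁻¹ ∈ C := by
          rw [← QuotientGroup.eq_one_iff, ← QuotientGroup.mk'_apply, map_mul, map_mul, map_inv,
            map_inv, hy, hσ, hσ]
          group
        have e2 := e a ha
        show (σ x)⁻¹ * (g * a * g⁻¹) * (σ x)⁻¹⁻¹ = y⁻¹ * a * y⁻¹⁻¹
        calc (σ x)⁻¹ * (g * a * g⁻¹) * (σ x)⁻¹⁻¹
            = (σ x)⁻¹ * g * (a * (g⁻¹ * σ x * y⁻¹)) * y := by group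
          _ = _ := by rw [e2]; group)
    refine ⟨S, s1, s2, fun a => ?_⟩
    have := s3 a a.2
    simp only [dif_pos a.2] at this
    exact this
  obtain ⟨S, ⟨s1, s2⟩, hmax⟩ := (wellFounded_gt (α := Subgroup (Wr (Zc p) (G ⧸ C)))).has_min
    {S | F.mem S ∧ ∀ k, RegularWreathProduct.inl k ∈ S} (by
      obtain ⟨S, s1, s2, -⟩ := good 1
      exact ⟨S, s1, s2⟩)
  have hle : ∀ S' : Subgroup (Wr (Zc p) (G ⧸ C)), F.mem S' →
      (∀ k, RegularWreathProduct.inl k ∈ S') → S' ≤ S := fun S' a b => by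
    obtain ⟨U, u1, u2, u3⟩ := good_sup F.ok s1 s2 a b
    have : U = S := by
      by_contra hne
      exact hmax U ⟨u1, fun k => u2 (s2 k)⟩ (lt_of_le_of_ne u2 (Ne.symm hne))
    exact this ▸ u3
  have hmul : ∀ u v, vv u ∈ S → vv v ∈ S → vv (u * v) ∈ S := by
    obtain ⟨U, u1, u2, u3⟩ := good_mul F.ok hs s1 s2
    exact fun u v hu hv => hle U u1 u2 (u3 u v hu hv)
  have hadd : ∀ u v, vv u ∈ S → vv v ∈ S → vv (u + v) ∈ S := fun u v hu hv => by
    convert S.mul_mem hu hv using 1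
    rw [vv, vv, vv, ← map_mul]; rfl
  have hsm : ∀ (c : ZMod p) u, vv u ∈ S → vv (fun x => c * u x) ∈ S := fun c u hu => by
    convert S.pow_mem hu c.val using 1
    rw [vv, vv, ← map_pow]
    congr 1
    funext x
    rw [Pi.pow_apply, ← ofAdd_nsmul, nsmul_eq_mul, ZMod.natCast_zmod_val]
  have hch : ∀ u : A, u ≠ 1 → ∃ l : A →* Zc p, l u ≠ 1 := exists_char hp
    (fun a b => Subtype.ext (hc _ a.2 _ b.2)) (fun a => Subtype.ext (he _ a.2))
  have sep : ∀ x y, x ≠ y → ∃ v, vv v ∈ S ∧ v x ≠ v y := fun x y hxy => by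
    have h1 : σ x * (σ y)⁻¹ ∉ C := fun h1 => hxy (by
      rw [← QuotientGroup.eq_one_iff, ← QuotientGroup.mk'_apply, map_mul, map_inv, hσ, hσ] at h1
      exact mul_inv_eq_one.1 h1)
    rw [hC, Subgroup.mem_centralizer_iff] at h1
    push Not at h1
    obtain ⟨a, ha, h1⟩ := h1
    obtain ⟨l, hl⟩ := hch (⟨(σ x)⁻¹ * a * (σ x)⁻¹⁻¹, hA.conj_mem _ ha _⟩ *
      (⟨(σ y)⁻¹ * a * (σ y)⁻¹⁻¹, hA.conj_mem _ ha _⟩ : A)⁻¹) (fun h2 => h1 (by
        have h3 : (σ x)⁻¹ * a * (σ x)⁻¹⁻¹ = (σ y)⁻¹ * a * (σ y)⁻¹⁻¹ :=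
          congrArg Subtype.val (mul_inv_eq_one.1 h2)
        calc a * (σ x * (σ y)⁻¹) = σ x * ((σ x)⁻¹ * a * (σ x)⁻¹⁻¹) * (σ y)⁻¹ := by group
          _ = _ := by rw [h3]; group))
    obtain ⟨S', a1, a2, a3⟩ := good l
    refine ⟨_, hle S' a1 a2 (a3 ⟨a, ha⟩), fun h2 => hl ?_⟩
    rw [map_mul, map_inv, mul_inv_eq_one]
    exact h2
  have nz : ∀ x, ∃ v, vv v ∈ S ∧ v x ≠ 0 := fun x => by
    obtain ⟨a, ha⟩ := Subgroup.ne_bot_iff_exists_ne_one.1 hb
    obtain ⟨l, hl⟩ := hch ⟨(σ x)⁻¹ * a * (σ x)⁻¹⁻¹, hA.conj_mem _ a.2 _⟩ (fun h2 => ha (by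
      have h3 : (σ x)⁻¹ * a * (σ x)⁻¹⁻¹ = 1 := congrArg Subtype.val h2
      apply Subtype.ext
      show (a : G) = 1
      calc (a : G) = σ x * ((σ x)⁻¹ * a * (σ x)⁻¹⁻¹) * (σ x)⁻¹ := by group
        _ = 1 := by rw [h3]; simp))
    obtain ⟨S', a1, a2, a3⟩ := good l
    exact ⟨_, hle S' a1 a2 (a3 a), hl⟩
  have key : ∀ x (s : Finset (G ⧸ C)), ∃ v, vv v ∈ S ∧ v x ≠ 0 ∧ ∀ y ∈ s, y ≠ x → v y = 0 := by
    intro x s
    induction s using Finset.induction_on with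
    | empty => obtain ⟨v, a, b⟩ := nz x; exact ⟨v, a, b, by simp⟩
    | insert y s _ ih =>
      obtain ⟨v, a, b, c⟩ := ih
      by_cases hy : y = x
      · exact ⟨v, a, b, fun z hz hzx => c z ((Finset.mem_insert.1 hz).resolve_left (hy ▸ hzx)) hzx⟩
      obtain ⟨u, u1, u2⟩ := sep x y (Ne.symm hy)
      refine ⟨_, hadd _ _ (hmul _ _ a u1) (hsm (-u y) _ a), ?_, fun z hz hzx => ?_⟩
      · have : v x * (u x - u y) ≠ 0 := mul_ne_zero b (sub_ne_zero.2 u2)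
        convert this using 1
        simp only [Pi.add_apply, Pi.mul_apply]; ring
      · rcases Finset.mem_insert.1 hz with rfl | hz
        · simp only [Pi.add_apply, Pi.mul_apply]; ring
        · simp [c z hz hzx]
  have htop : S = ⊤ := by
    have h3 : ∀ q t, sg q t ∈ S := fun q t => by
      have := Fintype.ofFinite (G ⧸ C)
      obtain ⟨v, a, b, c⟩ := key q Finset.univ
      convert hsm (t.toAdd * (v q)⁻¹) v a using 1
      ext y
      · by_cases hy : y = q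
        · subst hy
          rw [sg_self]
          show t = Multiplicative.ofAdd (_ * _)
          rw [mul_assoc, inv_mul_cancel₀ b, mul_one]; rfl
        · rw [sg_ne _ _ _ hy]
          show 1 = Multiplicative.ofAdd (_ * v y)
          rw [c y (Finset.mem_univ _) hy, mul_zero]; rfl
      · rfl
    rw [eq_top_iff]
    intro w _
    have : w = w * (RegularWreathProduct.inl w.right)⁻¹ * RegularWreathProduct.inl w.right := by group
    rw [this]
    exact S.mul_mem (base_mem S h3 _ (by simp)) (s2 _)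
  rw [htop] at s1
  exact F.ok.iso Subgroup.topEquiv s1

end Pool.Agent.H.MP_84bb83_al
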