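import Pool.Agent.H.MP_84bb83_al.A

set_option autoImplicit false

namespace Pool.Agent.H.MP_84bb83_al

open Function Pointwise Pool.Agent.H.MP_4f47f1_al Pool.Agent.H.MP_44c8f1_al
  Pool.Agent.H.MP_58728c_al Pool.Agent.H.MP_456268_al

def PN (p : ℕ) : Cl := fun G _ => Finite G ∧ ∃ J : Subgroup G, J.Normal ∧
  (∀ x ∈ J, ¬ p ∣ orderOf x) ∧ ∀ x : G, ∃ k, x ^ p ^ k ∈ J

def PNF (p : ℕ) (hp : p.Prime) : NF where
  mem := PN p
  ok := by
    refine ⟨fun G _ h => h.1, ?_, ?_⟩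
    · rintro G Y _ _ f hf ⟨_, J, h1, h2, h3⟩
      refine ⟨Finite.of_surjective f hf, J.map f, h1.map f hf, ?_, fun y => ?_⟩
      · rintro _ ⟨x, hx, rfl⟩ h
        exact h2 x hx (h.trans (orderOf_map_dvd f x))
      · obtain ⟨x, rfl⟩ := hf y
        obtain ⟨k, hk⟩ := h3 x
        exact ⟨k, by rw [← map_pow]; exact Subgroup.mem_map_of_mem f hk⟩
    · rintro G _ N1 N2 _ _ hb ⟨f1, I, a1, a2, a3⟩ ⟨f2, J, b1, b2, b3⟩
      refine ⟨phi_fin.2.2 G N1 N2 hb f1 f2,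
        I.comap (QuotientGroup.mk' N1) ⊓ J.comap (QuotientGroup.mk' N2), inferInstance, ?_, ?_⟩
      · rintro x ⟨h1, h2⟩ h
        have : x ^ (orderOf (x : G ⧸ N1) * orderOf (x : G ⧸ N2)) ∈ N1 ⊓ N2 := by
          constructor
          · apply (QuotientGroup.eq_one_iff _).1
            rw [QuotientGroup.mk_pow, pow_mul, pow_orderOf_eq_one, one_pow]
          · apply (QuotientGroup.eq_one_iff _).1
            rw [QuotientGroup.mk_pow, mul_comm, pow_mul, pow_orderOf_eq_one, one_pow]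
        rw [hb] at this
        rcases hp.dvd_mul.1 (h.trans (orderOf_dvd_of_pow_eq_one this)) with h | h
        · exact a2 _ h1 h
        · exact b2 _ h2 h
      · intro x
        obtain ⟨i, hi⟩ := a3 (x : G ⧸ N1)
        obtain ⟨j, hj⟩ := b3 (x : G ⧸ N2)
        refine ⟨i + j, ?_, ?_⟩
        · rw [pow_add, pow_mul]
          exact Subgroup.pow_mem _ (show x ^ p ^ i ∈ I.comap (QuotientGroup.mk' N1) from hi) _
        · rw [pow_add, mul_comm, pow_mul]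
          exact Subgroup.pow_mem _ (show x ^ p ^ j ∈ J.comap (QuotientGroup.mk' N2) from hj) _
  ne := ⟨inferInstance, ⊤, inferInstance, fun x _ h => by
    rw [Subsingleton.elim x 1, orderOf_one] at h
    exact hp.one_lt.ne' (Nat.dvd_one.1 h), fun _ => ⟨0, trivial⟩⟩

lemma PN_sub {p : ℕ} {X G : Type} [Group X] [Group G] (φ : X →* G) (hφ : Injective φ)
    (h : PN p G) : PN p X := by
  obtain ⟨_, J, h1, h2, h3⟩ := h
  refine ⟨Finite.of_injective φ hφ, J.comap φ, h1.comap φ, fun x hx => ?_, fun x => ?_⟩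
  · rw [← orderOf_injective φ hφ]; exact h2 _ hx
  · obtain ⟨k, hk⟩ := h3 (φ x)
    exact ⟨k, by rwa [← map_pow] at hk⟩

lemma PN_of {p : ℕ} {G : Type} [Group G] [Finite G] (h : ¬ p ∣ Nat.card G) : PN p G :=
  ⟨inferInstance, ⊤, inferInstance, fun x _ hx => h (hx.trans (orderOf_dvd_natCard x)),
    fun _ => ⟨0, trivial⟩⟩

lemma PN_amb {p : ℕ} (hp : p.Prime) {W : Type} [Group W] (Y : Subgroup W) [hY : Y.Normal]
    (h : PN p Y) : ∃ J : Subgroup W, J.Normal ∧ (∀ x ∈ J, ¬ p ∣ orderOf x) ∧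
      ∀ x ∈ Y, ∃ k, x ^ p ^ k ∈ J := by
  obtain ⟨_, J, h1, h2, h3⟩ := h
  have a : ∀ x ∈ J.map Y.subtype, ¬ p ∣ orderOf x := by
    rintro _ ⟨x, hx, rfl⟩
    rw [orderOf_injective Y.subtype (Subgroup.subtype_injective _)]
    exact h2 x hx
  have b : ∀ x ∈ Y, ∃ k, x ^ p ^ k ∈ J.map Y.subtype := fun x hx => by
    obtain ⟨k, hk⟩ := h3 ⟨x, hx⟩
    exact ⟨k, _, hk, rfl⟩
  refine ⟨J.map Y.subtype, ⟨fun x hx g => ?_⟩, a, b⟩
  obtain ⟨k, hk⟩ := b _ (hY.conj_mem _ (Subgroup.map_subtype_le _ hx) g)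
  obtain ⟨m, hm⟩ := exists_pow_eq_self_of_coprime (x := g * x * g⁻¹) (n := p ^ k) (by
    rw [← MulAut.conj_apply, MulEquiv.orderOf_eq]
    exact (hp.coprime_iff_not_dvd.2 (a x hx)).pow_left k)
  rw [← hm]
  exact Subgroup.pow_mem _ hk m

lemma elab_sub {T : Type} [Group T] [Finite T] (V : Subgroup T) [V.Normal] [Group.IsNilpotent V]
    (h : V ≠ ⊥) : ∃ r : ℕ, r.Prime ∧ ∃ Z : Subgroup T, Z.Normal ∧ Z ≠ ⊥ ∧
      ∀ z ∈ Z, z ∈ V ∧ z ^ r = 1 ∧ ∀ v ∈ V, v * z = z * v := by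
  have := (Subgroup.nontrivial_iff_ne_bot _).2 h
  set C := (Subgroup.center V).map V.subtype with hC
  have hn : C.Normal := inferInstance
  have hb : C ≠ ⊥ := by
    rw [hC, Ne, Subgroup.map_eq_bot_iff_of_injective _ (Subgroup.subtype_injective _)]
    exact Group.IsNilpotent.center_ne_bot _
  have hc : ∀ z ∈ C, z ∈ V ∧ ∀ v ∈ V, v * z = z * v := by
    rintro _ ⟨z, hz, rfl⟩
    exact ⟨z.2, fun v hv => congrArg Subtype.val (Subgroup.mem_center_iff.1 hz ⟨v, hv⟩)⟩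
  obtain ⟨r, hr, l, hl, ho⟩ := exists_ord C hb
  refine ⟨r, hr,
    { carrier := {x | x ∈ C ∧ x ^ r = 1}
      one_mem' := ⟨C.one_mem, one_pow _⟩
      mul_mem' := fun {a b} ha hb => ⟨C.mul_mem ha.1 hb.1, by
        rw [Commute.mul_pow ((hc b hb.1).2 a (hc a ha.1).1), ha.2, hb.2, mul_one]⟩
      inv_mem' := fun {a} ha => ⟨C.inv_mem ha.1, by rw [inv_pow, ha.2, inv_one]⟩ },
    ⟨fun n h g => ⟨hn.conj_mem _ h.1 g, by rw [conj_pow, h.2]; simp⟩⟩, fun h0 => ?_,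
    fun z hz => ⟨(hc z hz.1).1, hz.2, (hc z hz.1).2⟩⟩
  have h1 : l ∈ (⊥ : Subgroup T) := h0 ▸ ⟨hl, ho ▸ pow_orderOf_eq_one l⟩
  rw [Subgroup.mem_bot.1 h1, orderOf_one] at ho
  exact hr.one_lt.ne ho

lemma gas_ab {p : ℕ} (hp : p.Prime) {T : Type} [Group T] [Finite T] (Z D : Subgroup T)
    [hZ : Z.Normal] [hD : D.Normal] (h1 : Z ≤ D) (h2 : Z ≤ frattini T)
    (hc : ∀ a ∈ Z, ∀ b ∈ Z, a * b = b * a) (he : ∀ a ∈ Z, a ^ p = 1)
    (ho : ∀ x ∈ D, ¬ p ∣ orderOf (x : T ⧸ Z)) :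
    ∃ J : Subgroup T, J.Normal ∧ J ⊓ Z = ⊥ ∧ J ≤ D ∧ ∀ x ∈ D, ∃ z ∈ Z, ∃ j ∈ J, x = z * j := by
  classical
  have := Fact.mk hp
  have hi : ¬ p ∣ (Z.subgroupOf D).index := fun h => by
    obtain ⟨x, hx⟩ := exists_prime_orderOf_dvd_card' (G := D ⧸ Z.subgroupOf D) p h
    obtain ⟨x, rfl⟩ := QuotientGroup.mk_surjective x
    refine ho x x.2 ?_
    rw [← hx]
    apply orderOf_dvd_of_pow_eq_one
    rw [← QuotientGroup.mk_pow, QuotientGroup.eq_one_iff, Subgroup.mem_subgroupOf,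
      ← QuotientGroup.eq_one_iff, SubgroupClass.coe_pow, QuotientGroup.mk_pow, pow_orderOf_eq_one]
  have hP : IsPGroup p (Z.subgroupOf D) := fun x =>
    ⟨1, Subtype.ext (Subtype.ext (by rw [pow_one]; exact he _ x.2))⟩
  obtain ⟨k, hk⟩ := IsPGroup.iff_card.1 hP
  obtain ⟨H, hH⟩ := Subgroup.exists_right_complement'_of_coprime (N := Z.subgroupOf D) (by
    rw [hk]; exact ((hp.coprime_iff_not_dvd.2 hi)).pow_left k)
  set J := H.map D.subtype with hJ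
  have a1 : J ⊓ Z = ⊥ := by
    rw [eq_bot_iff]
    rintro _ ⟨⟨x, hx, rfl⟩, h⟩
    have : x ∈ Z.subgroupOf D ⊓ H := ⟨h, hx⟩
    rw [hH.disjoint.eq_bot] at this
    rw [Subgroup.mem_bot.1 this]; rfl
  have a2 : J ≤ D := Subgroup.map_subtype_le _
  have a3 : ∀ x ∈ D, ∃ z ∈ Z, ∃ j ∈ J, x = z * j := fun x hx => by
    obtain ⟨⟨z, j⟩, e⟩ := hH.2 ⟨x, hx⟩
    exact ⟨z.1.1, z.2, j.1.1, ⟨j.1, j.2, rfl⟩, (congrArg Subtype.val e).symm⟩
  have a4 : (Nat.card J).Coprime p := by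
    rw [hJ, Subgroup.card_map_of_injective (Subgroup.subtype_injective _), ← hH.symm.index_eq_card]
    exact (hp.coprime_iff_not_dvd.2 hi).symm
  refine ⟨J, ?_, a1, a2, a3⟩
  rw [← Subgroup.normalizer_eq_top_iff]
  apply frattini_nongenerating
  rw [eq_top_iff]
  intro t _
  let _ : CommGroup Z :=
    { (inferInstance : Group Z) with mul_comm := fun a b => Subtype.ext (hc _ a.2 _ b.2) }
  have ex : ∀ j : J, ∃ z : Z, t * (z * j) * t⁻¹ ∈ J := fun j => by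
    obtain ⟨z, hz, i, hi, e⟩ := a3 _ (hD.conj_mem _ (a2 j.2) t)
    refine ⟨⟨t⁻¹ * z⁻¹ * t⁻¹⁻¹, hZ.conj_mem _ (Z.inv_mem hz) _⟩, ?_⟩
    convert hi using 1
    calc t * (t⁻¹ * z⁻¹ * t⁻¹⁻¹ * j) * t⁻¹ = z⁻¹ * (t * j * t⁻¹) := by group
      _ = i := by rw [e]; group
  choose δ hδ using ex
  have coc : ∀ j e : J, δ (j * e) = δ j * MulAut.conjNormal (j : T) (δ e) := fun j e => by
    have : t * (δ (j * e) * (δ j * MulAut.conjNormal (j : T) (δ e))⁻¹ : Z) * t⁻¹ ∈ J ⊓ Z := by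
      refine ⟨?_, hZ.conj_mem _ (Subtype.prop _) _⟩
      convert J.mul_mem (hδ (j * e)) (J.inv_mem (J.mul_mem (hδ j) (hδ e))) using 1
      simp [mul_assoc]
    rw [a1, Subgroup.mem_bot] at this
    apply mul_inv_eq_one.1
    apply Subtype.ext
    simpa using this
  have := Fintype.ofFinite J
  obtain ⟨m, hm⟩ := exists_pow_eq_self_of_coprime (x := ∏ e, δ e) (n := Nat.card J)
    (a4.coprime_dvd_right (orderOf_dvd_of_pow_eq_one (Subtype.ext (he _ (Subtype.prop _)))))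
  set w := (∏ e, δ e) ^ m with hw
  have hw2 : w ^ Nat.card J = ∏ e, δ e := by rw [hw, ← pow_mul, mul_comm, pow_mul, hm]
  have fin : ∀ j : J, δ j * MulAut.conjNormal (j : T) w = w := fun j => by
    have e1 : ∏ e, δ e = δ j ^ Nat.card J * MulAut.conjNormal (j : T) (∏ e, δ e) := by
      conv_lhs => rw [← Equiv.prod_comp (Equiv.mulLeft j)]
      simp only [Equiv.coe_mulLeft, coc]
      rw [Finset.prod_mul_distrib, map_prod]
      simp
    apply mul_inv_eq_one.1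
    refine (pow_eq_one_iff_of_coprime a4).1 ⟨?_, Subtype.ext (he _ (Subtype.prop _))⟩
    rw [mul_pow, mul_pow, inv_pow, ← map_pow, hw2, ← e1, mul_inv_cancel]
  have : t * w ∈ Subgroup.normalizer (J : Set T) := Subgroup.mem_normalizer_fintype fun j hj => by
    have e : (δ ⟨j, hj⟩ : T) * (j * w * j⁻¹) = w := congrArg Subtype.val (fin ⟨j, hj⟩)
    have e2 : t * w * j * (t * w)⁻¹ = t * (δ ⟨j, hj⟩ * j) * t⁻¹ :=
      calc t * w * j * (t * w)⁻¹ = t * (δ ⟨j, hj⟩ * (j * w * j⁻¹)) * j * (t * w)⁻¹ := by rw [e]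
        _ = _ := by group
    rw [e2]
    exact hδ ⟨j, hj⟩
  have e : t = t * w * (w : T)⁻¹ := by group
  rw [e]
  exact Subgroup.mul_mem_sup this (h2 (Z.inv_mem w.2))

lemma gas {p : ℕ} (hp : p.Prime) : ∀ (T : Type) [Group T], Finite T → ∀ D : Subgroup T, D.Normal →
    (∀ x ∈ D, ∃ m, ¬ p ∣ m ∧ x ^ m ∈ frattini T) → ∃ J : Subgroup T, J.Normal ∧
      (∀ x ∈ J, ¬ p ∣ orderOf x) ∧ ∀ x ∈ D, ∃ k, x ^ p ^ k ∈ J := by
  refine ind _ (fun T _ => Finite T) (fun _ _ h => h) (fun _ _ _ _ _ => inferInstance) ?_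
  intro T _ _ ih D hD h
  by_cases hF : frattini T = ⊥
  · refine ⟨D, hD, fun x hx hd => ?_, fun x hx => ⟨0, by simpa using hx⟩⟩
    obtain ⟨m, h1, h2⟩ := h x hx
    rw [hF] at h2
    exact h1 (hd.trans (orderOf_dvd_of_pow_eq_one h2))
  have := frattini_nilpotent (G := T)
  obtain ⟨r, hr, Z, z1, z2, z3⟩ := elab_sub (frattini T) hF
  obtain ⟨I, i1, i2, i3⟩ := ih Z z2 (D.map (QuotientGroup.mk' Z))
    (hD.map _ (QuotientGroup.mk'_surjective _)) (by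
      rintro _ ⟨x, hx, rfl⟩
      obtain ⟨m, h1, h2⟩ := h x hx
      exact ⟨m, h1, by
        rw [← map_pow]
        exact frattini_le_comap_frattini_of_surjective (QuotientGroup.mk'_surjective _) h2⟩)
  have i4 : ∀ x ∈ D, ∃ k, x ^ p ^ k ∈ I.comap (QuotientGroup.mk' Z) := fun x hx =>
    i3 _ (Subgroup.mem_map_of_mem _ hx)
  by_cases hrp : r = p
  · subst hrp
    have := i1.comap (QuotientGroup.mk' Z)
    obtain ⟨J, j1, j2, j3, j4⟩ := gas_ab hp Z (I.comap (QuotientGroup.mk' Z))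
      (QuotientGroup.le_comap_mk' _ _) (fun z hz => (z3 z hz).1)
      (fun a ha b hb => (z3 b hb).2.2 a (z3 a ha).1) (fun a ha => (z3 a ha).2.1)
      (fun x hx => i2 _ hx)
    refine ⟨J, j1, fun x hx hd => i2 _ (j3 hx) (hd.trans (orderOf_dvd_of_pow_eq_one ?_)),
      fun x hx => ?_⟩
    · rw [← Subgroup.mem_bot, ← j2]
      refine ⟨J.pow_mem hx _, (QuotientGroup.eq_one_iff _).1 ?_⟩
      rw [QuotientGroup.mk_pow]
      exact pow_orderOf_eq_one _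
    · obtain ⟨k, hk⟩ := i4 x hx
      obtain ⟨z, hz, j, hj, e⟩ := j4 _ hk
      refine ⟨k + 1, ?_⟩
      rw [pow_succ, pow_mul, e, (Subgroup.commute_of_normal_of_disjoint J Z j1 z1
        (disjoint_iff.2 j2) j z hj hz).symm.mul_pow, (z3 z hz).2.1, one_mul]
      exact J.pow_mem hj _
  · refine ⟨_, i1.comap _, fun x hx hd => ?_, i4⟩
    have : x ^ (orderOf (x : T ⧸ Z) * r) = 1 := by
      rw [pow_mul]
      refine (z3 _ ((QuotientGroup.eq_one_iff _).1 ?_)).2.1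
      rw [QuotientGroup.mk_pow]
      exact pow_orderOf_eq_one _
    rcases hp.dvd_mul.1 (hd.trans (orderOf_dvd_of_pow_eq_one this)) with h | h
    · exact i2 _ hx h
    · exact hrp ((Nat.prime_dvd_prime_iff_eq hp hr).1 h).symm

lemma sat_PN {p : ℕ} (hp : p.Prime) (B : NF) : Sat (PNF p hp * B).mem := by
  rintro T _ _ ⟨_, h⟩
  refine ⟨inferInstance, ?_⟩
  obtain ⟨I, i1, i2, i3⟩ := PN_amb hp _ h
  obtain ⟨J, j1, j2, j3⟩ := gas hp T inferInstance (I.comap (QuotientGroup.mk' _)) (i1.comap _)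
    fun x hx => ⟨_, i2 _ hx, (QuotientGroup.eq_one_iff _).1 (by
      rw [QuotientGroup.mk_pow]; exact pow_orderOf_eq_one _)⟩
  refine ⟨inferInstance, J.comap (res B.mem T).subtype, j1.comap _, fun x hx => ?_, fun x => ?_⟩
  · rw [← orderOf_injective _ (res B.mem T).subtype_injective]; exact j2 _ hx
  · obtain ⟨k, hk⟩ := i3 _ (resHom B (QuotientGroup.mk' (frattini T))
      (QuotientGroup.mk'_surjective _) x).2
    obtain ⟨l, hl⟩ := j3 (x ^ p ^ k) hk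
    exact ⟨k + l, by rw [pow_add, pow_mul]; exact hl⟩

end Pool.Agent.H.MP_84bb83_al
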