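import Pool.Agent.H.MP_84bb83_al.B

set_option autoImplicit false

namespace Pool.Agent.H.MP_84bb83_al

open Function Pointwise Pool.Agent.H.MP_4f47f1_al Pool.Agent.H.MP_44c8f1_al
  Pool.Agent.H.MP_58728c_al Pool.Agent.H.MP_456268_al

lemma inv_sum {G : Type} [Group G] [Fintype G] (H : Subgroup G) (f : G → ℤ)
    (h : ∀ y ∈ H, ∀ g, f (y * g) = f g) : (Nat.card H : ℤ) ∣ ∑ g, f g := by
  classical
  obtain ⟨T, hT, -⟩ := Subgroup.exists_isComplement_right H 1
  have := Fintype.ofFinite T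
  have := Fintype.ofFinite H
  rw [← Equiv.sum_comp hT.equiv.symm, Fintype.sum_prod_type]
  simp only [Subgroup.IsComplement.equiv_symm_apply]
  refine ⟨∑ t : T, f t, (Finset.sum_congr rfl fun y _ => Finset.sum_congr rfl fun t _ =>
    h y.1 y.2 t.1).trans ?_⟩
  simp

lemma exists_ext {G : Type} [Group G] (P : Subgroup G) {p : ℕ} (χ : P →* Zc p) :
    ∃ l : G → ZMod p, ∀ (y : P) g, l (y * g) = (χ y).toAdd + l g := by
  obtain ⟨T, hT, -⟩ := Subgroup.exists_isComplement_right P 1
  refine ⟨fun g => (χ (hT.equiv g).1).toAdd, fun y g => ?_⟩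
  simp only [hT.equiv_mul_left, map_mul, toAdd_mul]

def Sm {G : Type} [Group G] [Fintype G] {p : ℕ} (a : G → G → Zc p) (l : G → ZMod p) : ZMod p :=
  ∑ h, ∑ g, (a h g).toAdd * (l (h * g) - l h)

lemma Sm_mul {G : Type} [Group G] [Fintype G] {p : ℕ} (a b : G → G → Zc p) (l : G → ZMod p) :
    Sm (a * b) l = Sm a l + Sm b l := by
  simp [Sm, add_mul, Finset.sum_add_distrib]

lemma Sm_sh {G : Type} [Group G] [Fintype G] {p : ℕ} (a : G → G → Zc p) (l : G → ZMod p) (x : G) :
    Sm (fun h => a (x⁻¹ * h)) l = Sm a (fun y => l (x * y)) := by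
  rw [Sm, Sm, ← Equiv.sum_comp (Equiv.mulLeft x)]
  simp [mul_assoc]

def EE (G : Type) [Group G] [Fintype G] (p : ℕ) : Subgroup (Wr (G → Zc p) G) where
  carrier := {w | ∀ l, Sm w.left l = l w.right - l 1}
  one_mem' := fun l => by simp [Sm]
  mul_mem' := fun {a b} ha hb l => by
    rw [RegularWreathProduct.mul_left, Sm_mul, Sm_sh, ha, hb]
    simp
  inv_mem' := fun {a} ha l => by
    have h1 := Sm_mul a⁻¹.left (fun h => a.left (a.right⁻¹⁻¹ * h)) l
    rw [Sm_sh, ha] at h1
    have h2 : Sm (a⁻¹.left * fun h => a.left (a.right⁻¹⁻¹ * h)) l = 0 := by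
      simp [Sm]
    rw [h2] at h1
    simp only [inv_mul_cancel, mul_one] at h1
    rw [RegularWreathProduct.inv_right]
    linear_combination -h1

lemma EE_surj (G : Type) [Group G] [Fintype G] (p : ℕ) :
    Surjective ((RegularWreathProduct.rightHom).comp (EE G p).subtype) := by
  classical
  intro g
  refine ⟨⟨⟨fun h y => if h = 1 ∧ y = g then Multiplicative.ofAdd 1 else 1, g⟩, fun l => ?_⟩, rfl⟩
  rw [Sm, Finset.sum_eq_single 1, Finset.sum_eq_single g]
  · simp
  · intro b _ hb; simp [hb]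
  · simp
  · intro b _ hb; simp [hb]
  · simp

lemma pow_left {Q G : Type} [CommGroup Q] [Group G] (m : Wr Q G) (k : ℕ) (h : G) :
    (m ^ k).left h = ∏ i ∈ Finset.range k, m.left ((m.right ^ i)⁻¹ * h) := by
  induction k with
  | zero => simp
  | succ k ih =>
    have : (m ^ k).right = m.right ^ k := map_pow RegularWreathProduct.rightHom m k
    rw [pow_succ, Finset.prod_range_succ, ← ih, ← this]; rfl

lemma core {G : Type} [Group G] [Fintype G] {p : ℕ} (hp : p.Prime) (P : Subgroup G) (χ : P →* Zc p)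
    (x : P) (hx : χ x ≠ 1) (m : Wr (G → Zc p) G) (hm : m ∈ EE G p) (hr : m.right = x)
    (hi : ∀ y ∈ P, ∀ h, (m ^ orderOf x.1).left (y * h) = (m ^ orderOf x.1).left h)
    (hd : m ^ orderOf x.1 = 1 ∨ p * orderOf x.1 ∣ Nat.card P) : False := by
  have := Fact.mk hp
  obtain ⟨l, hl⟩ := exists_ext P χ
  set n := orderOf x.1 with hn
  have hμ : ∀ y ∈ P, ∀ h g, l (y * h * g) - l (y * h) = l (h * g) - l h := fun y hy h g => by
    rw [mul_assoc, hl ⟨y, hy⟩, hl ⟨y, hy⟩]; ring
  let F : G → ZMod p := fun h => ∑ g, (m.left h g).toAdd * (l (h * g) - l h)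
  let v : G → ZMod p := fun h => ∑ g, ((m ^ n).left h g).toAdd * (l (h * g) - l h)
  have h1 : ∀ h, v h = ∑ i ∈ Finset.range n, F ((x.1 ^ i)⁻¹ * h) := fun h => by
    simp only [v, F, pow_left, Finset.prod_apply, toAdd_prod, Finset.sum_mul, hr]
    rw [Finset.sum_comm]
    refine Finset.sum_congr rfl fun i _ => Finset.sum_congr rfl fun g _ => ?_
    rw [hμ _ (P.inv_mem (P.pow_mem x.2 i))]
  have h2 : ∀ y ∈ P, ∀ h, v (y * h) = v h := fun y hy h => by
    simp only [v, hi y hy, hμ y hy]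
  let w : G → ℤ := fun h => ∑ i ∈ Finset.range n, ((F ((x.1 ^ i)⁻¹ * h)).val : ℤ)
  have h3 : ∀ h, (p : ℤ) ∣ w h - (v h).val := fun h => by
    rw [← ZMod.intCast_zmod_eq_zero_iff_dvd]
    simp [w, h1]
  have h4 : ∀ h, w (x * h) = w h := fun h => by
    have e1 := Finset.sum_range_succ (fun i => ((F ((x.1 ^ i)⁻¹ * (x * h))).val : ℤ)) n
    rw [Finset.sum_range_succ'] at e1
    simp only [hn, pow_orderOf_eq_one, pow_zero, add_left_inj] at e1
    simp only [w, hn, ← e1, pow_succ', mul_inv_rev, mul_assoc, inv_mul_cancel_left]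
  have h5 : ∀ y ∈ Subgroup.zpowers x.1, ∀ h, w (y * h) = w h := fun y hy => by
    obtain ⟨k, rfl⟩ := mem_powers_iff_mem_zpowers.2 hy
    induction k with
    | zero => simp
    | succ k ih =>
      intro h
      simp only [pow_succ', mul_assoc, h4]
      exact ih (Subgroup.npow_mem_zpowers _ _) h
  choose u hu using h3
  have h6 := inv_sum (Subgroup.zpowers x.1) u fun y hy h => by
    have := hu (y * h)
    rw [h5 y hy, h2 y ((Subgroup.zpowers_le.2 x.2) hy), hu h] at this
    exact (mul_left_cancel₀ (Int.natCast_ne_zero.2 hp.ne_zero) this).symm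
  rw [Nat.card_zpowers] at h6
  have h7 : ((p * n : ℕ) : ℤ) ∣ ∑ h, ((v h).val : ℤ) := by
    rcases hd with hd | hd
    · simp [v, hd]
    · exact (Int.natCast_dvd_natCast.2 hd).trans (inv_sum P _ fun y hy h => by rw [h2 y hy])
  have h8 : ∑ h, w h = n * ∑ h, ((F h).val : ℤ) := by
    simp only [w]
    rw [Finset.sum_comm]
    refine (Finset.sum_congr rfl fun i _ =>
      Equiv.sum_comp (Equiv.mulLeft (x.1 ^ i)⁻¹) fun h => ((F h).val : ℤ)).trans ?_
    simp
  have h9 : ∑ h, w h = ∑ h, ((v h).val : ℤ) + p * ∑ h, u h := by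
    rw [Finset.mul_sum, ← Finset.sum_add_distrib]
    exact Finset.sum_congr rfl fun h _ => by rw [← hu h]; ring
  have h10 : (n : ℤ) * p ∣ n * ∑ h, ((F h).val : ℤ) := by
    rw [← h8, h9, mul_comm]
    exact dvd_add (by exact_mod_cast h7) (mul_dvd_mul_left _ h6)
  have h11 := (ZMod.intCast_zmod_eq_zero_iff_dvd _ p).2 (Int.dvd_of_mul_dvd_mul_left
    (Int.natCast_ne_zero.2 (orderOf_pos x.1).ne') h10)
  have h12 := hm l
  rw [hr] at h12
  have h13 := hl x 1
  rw [mul_one] at h13
  apply hx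
  have : (χ x).toAdd = 0 := by
    have : Sm m.left l = 0 := by simpa [Sm, F] using h11
    linear_combination this - h12 - h13
  exact this

lemma bez {G : Type} [Group G] (H : Subgroup G) (y : G) (a b : ℕ) (h : a.Coprime b) (h1 : y ^ a ∈ H)
    (h2 : y ^ b ∈ H) : y ∈ H := by
  obtain ⟨u, v, e⟩ := Nat.isCoprime_iff_coprime.2 h
  have : y = (y ^ a) ^ u * (y ^ b) ^ v := by
    rw [← zpow_natCast, ← zpow_natCast, ← zpow_mul, ← zpow_mul, ← zpow_add, mul_comm _ u,
      mul_comm _ v, e, zpow_one]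
  rw [this]
  exact H.mul_mem (H.zpow_mem h1 u) (H.zpow_mem h2 v)

lemma burn {C : Type} [Group C] [Finite C] {p : ℕ} (hp : p.Prime) (P : Sylow p C) (x : C)
    (hx : Subgroup.zpowers x = P)
    (h : ∀ (y : C) (k : ℕ), y * x * y⁻¹ = x ^ k → (p : ℤ) ∣ k - 1) : PN p C := by
  have := Fact.mk hp
  have xP : x ∈ (P : Subgroup C) := hx ▸ Subgroup.mem_zpowers x
  have hP : Subgroup.normalizer P ≤ Subgroup.centralizer (P : Set C) := by
    intro y hy
    have : y ∈ Subgroup.centralizer {x} := by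
      obtain ⟨a, ha⟩ := P.isPGroup' ⟨x, xP⟩
      have ha' : x ^ p ^ a = 1 := congrArg Subtype.val ha
      let Q : Sylow p (Subgroup.normalizer (P : Set C)) := P.subtype P.le_normalizer
      have : Q.Normal := P.normal_in_normalizer
      have hq : (p ^ a).Coprime Q.1.index := (hp.coprime_iff_not_dvd.2 Q.not_dvd_index).pow_left a
      refine bez _ y _ _ hq ?_ ?_
      · have e0 : y * x * y⁻¹ ∈ Subgroup.zpowers x := by
          rw [hx]; exact (Subgroup.mem_set_normalizer_iff.1 hy x).1 xP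
        obtain ⟨k, hk⟩ := mem_powers_iff_mem_zpowers.2 e0
        have e : ∀ j : ℕ, y ^ j * x * (y ^ j)⁻¹ = x ^ k ^ j := fun j => by
          induction j with
          | zero => simp
          | succ j ih =>
            have hk' : x ^ k = y * x * y⁻¹ := hk
            rw [pow_succ' k, pow_mul, hk', conj_pow, ← ih, pow_succ']; group
        obtain ⟨c, hc⟩ := (pow_dvd_pow (p : ℤ) (Nat.le_succ a)).trans
          (dvd_sub_pow_of_dvd_sub (h y k hk.symm) a)
        rw [Subgroup.mem_centralizer_singleton_iff, ← mul_inv_eq_iff_eq_mul, e, ← zpow_natCast,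
          Nat.cast_pow, sub_eq_iff_eq_add.1 hc, one_pow, zpow_add_one, zpow_mul, ← Nat.cast_pow,
          zpow_natCast, ha', one_zpow, one_mul]
      · have : y ^ Q.1.index ∈ (P : Subgroup C) := Q.1.pow_index_mem ⟨y, hy⟩
        rw [← hx] at this
        obtain ⟨k, hk⟩ := this
        rw [← hk, Subgroup.mem_centralizer_singleton_iff]
        exact (Commute.zpow_self x k).eq
    intro g hg
    obtain ⟨k, rfl⟩ : g ∈ Subgroup.zpowers x := hx ▸ hg
    exact ((show Commute y x from Subgroup.mem_centralizer_singleton_iff.1 this).zpow_right k).symm.eq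
  refine ⟨inferInstance, (MonoidHom.transferSylow P hP).ker, inferInstance, fun z hz hd =>
    MonoidHom.not_dvd_card_ker_transferSylow P hP (hd.trans (Subgroup.orderOf_dvd_natCard _ hz)),
    fun z => ?_⟩
  obtain ⟨k, hk⟩ := P.isPGroup' (MonoidHom.transferSylow P hP z)
  exact ⟨k, by rw [MonoidHom.mem_ker, map_pow, hk]⟩

theorem gls (F : NF) (hs : Sat F.mem) {p : ℕ} (hp : p.Prime) {G : Type} [Group G] (hG : F.mem G)
    (hd : p ∣ Nat.card G) : ∃ (C : Subgroup G) (_ : C.Normal), PN p C ∧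
      F.mem (Wr (Zc p) (G ⧸ C)) := by
  have := Fact.mk hp
  have := F.ok.1 G hG
  have := Fintype.ofFinite G
  obtain ⟨M, m1, m2⟩ := msup F.ok hs _ (EE_surj G p) hG
  set f := ((RegularWreathProduct.rightHom).comp (EE G p).subtype).comp M.subtype with hf
  have f1 : ∀ m : M, f m = m.1.1.right := fun _ => rfl
  have hc : ∀ a ∈ f.ker, ∀ b ∈ f.ker, a * b = b * a := fun a ha b hb => by
    have ha' : a.1.1.right = 1 := ha
    have hb' : b.1.1.right = 1 := hb
    apply Subtype.ext; apply Subtype.ext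
    ext1
    · simp [ha', hb', mul_comm]
    · simp [ha', hb']
  have he : ∀ a ∈ f.ker, a ^ p = 1 := fun a ha => by
    apply Subtype.ext; apply Subtype.ext
    have := base_pow a.1.1 ha p
    ext1
    · refine this.1.trans ?_
      funext h g
      show Multiplicative.ofAdd (p • (a.1.1.left h g).toAdd) = Multiplicative.ofAdd 0
      simp
    · exact this.2
  set C0 := Subgroup.centralizer (f.ker : Set M) with hC0
  have : C0.Normal := Subgroup.normal_centralizer
  have hCn : (C0.map f).Normal := Subgroup.Normal.map inferInstance f m1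
  refine ⟨C0.map f, hCn, ?_, lemT F hs hp m2 f.ker (fun hb => ?_) hc he
    ((QuotientGroup.mk' _).comp f) ((QuotientGroup.mk'_surjective _).comp m1) fun c hc =>
      (QuotientGroup.eq_one_iff _).2 (Subgroup.mem_map_of_mem f hc)⟩
  · obtain ⟨P⟩ : Nonempty (Sylow p (C0.map f)) := inferInstance
    by_cases hP : (P : Subgroup (C0.map f)) = ⊥
    · refine PN_of ?_
      have := P.not_dvd_index
      rwa [hP, Subgroup.index_bot] at this
    set R := (P : Subgroup (C0.map f)).map (C0.map f).subtype with hR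
    have r1 : IsPGroup p R := P.isPGroup'.map _
    have := (Subgroup.nontrivial_iff_ne_bot R).2 (by
      rwa [hR, Ne, Subgroup.map_eq_bot_iff_of_injective _ (Subgroup.subtype_injective _)])
    obtain ⟨S, _, σ, a, b, -⟩ := simple_quot (⊥ : Subgroup R) bot_ne_top
    have := Finite.of_surjective σ b
    let e : S ≃* Zc p := mulEquivOfPrimeCardEq (simple_card hp a (r1.of_surjective σ b)) (by simp)
    obtain ⟨x, hx⟩ := (e.surjective.comp b) (Multiplicative.ofAdd 1)
    have hx' : (e.toMonoidHom.comp σ) x ≠ 1 := by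
      intro h
      have : (1 : ZMod p) = 0 := congrArg Multiplicative.toAdd (hx.symm.trans h)
      exact one_ne_zero this
    obtain ⟨m, mC, hm⟩ := Subgroup.map_subtype_le _ x.2
    have uk : m ^ orderOf x.1 ∈ f.ker := by rw [MonoidHom.mem_ker, map_pow, hm, pow_orderOf_eq_one]
    have := mt (core hp R _ x hx' m.1.1 m.1.2 hm fun y hy h => by
      obtain ⟨n, nC, rfl⟩ := Subgroup.map_subtype_le _ hy
      have e1 := congrFun (congrArg (fun w : M => w.1.1.left) (nC _ uk)) (f n * h)
      have e2 : (m.1.1 ^ orderOf x.1).right = 1 := uk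
      simp only [Subgroup.coe_mul, SubgroupClass.coe_pow, RegularWreathProduct.mul_left, Pi.mul_apply,
        e2, f1, inv_one, one_mul, inv_mul_cancel_left] at e1
      rw [mul_comm] at e1
      exact mul_left_cancel e1) not_false
    push Not at this
    obtain ⟨u1, u2⟩ := this
    obtain ⟨i, hi⟩ := IsPGroup.iff_card.1 r1
    obtain ⟨j, hj, hj'⟩ := (Nat.dvd_prime_pow hp).1 (hi ▸ Subgroup.orderOf_dvd_natCard R x.2)
    have hij : j = i := by
      by_contra hne
      rw [hj', hi, ← pow_succ'] at u2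
      exact u2 (pow_dvd_pow _ (by omega))
    have hz : Subgroup.zpowers x.1 = R := Subgroup.eq_of_le_of_card_ge (Subgroup.zpowers_le.2 x.2)
      (by rw [Nat.card_zpowers, hj', hi, hij])
    refine burn hp P ⟨x, Subgroup.map_subtype_le _ x.2⟩ ?_ ?_
    · apply Subgroup.map_injective (C0.map f).subtype_injective
      rw [MonoidHom.map_zpowers]
      exact hz
    · rintro ⟨_, n, nC, rfl⟩ k hk
      have e1 : f n * x * (f n)⁻¹ = x.1 ^ k := congrArg Subtype.val hk
      have zk : (m ^ k)⁻¹ * (n * m * n⁻¹) ∈ f.ker := by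
        rw [MonoidHom.mem_ker, map_mul, map_mul, map_mul, map_inv, map_inv, map_pow, hm, e1,
          inv_mul_cancel]
      have hj0 : j ≠ 0 := by
        rintro rfl
        rw [hj', pow_zero, pow_one] at uk
        apply hx'
        rw [show x = 1 from Subtype.ext (hm.symm.trans uk), map_one]
      have e2 : (n * m * n⁻¹) ^ orderOf x.1 = (m ^ orderOf x.1) ^ k := by
        have e3 : n * m * n⁻¹ = m ^ k * ((m ^ k)⁻¹ * (n * m * n⁻¹)) := by group
        have e4 : Commute (m ^ k) ((m ^ k)⁻¹ * (n * m * n⁻¹)) := (C0.pow_mem mC k _ zk).symm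
        rw [e3, e4.mul_pow, ← pow_mul, ← pow_mul, mul_comm k, hj', ← Nat.succ_pred_eq_of_ne_zero hj0,
          pow_succ' p, pow_mul ((m ^ k)⁻¹ * (n * m * n⁻¹)), he _ zk, one_pow, mul_one]
      rw [conj_pow, ← nC _ uk, mul_inv_cancel_right] at e2
      have e5 : orderOf (m ^ orderOf x.1) = p := orderOf_eq_prime (he _ uk) fun h =>
        u1 (congrArg (fun w : M => w.1.1) h)
      rw [← e5, orderOf_dvd_sub_iff_zpow_eq_zpow, zpow_natCast, zpow_one]
      exact e2.symm
  · obtain ⟨x, hx⟩ := exists_prime_orderOf_dvd_card' p hd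
    have x1 : (⟨x, Subgroup.mem_zpowers x⟩ : Subgroup.zpowers x) ≠ 1 := fun h => by
      rw [show x = 1 from congrArg Subtype.val h, orderOf_one] at hx
      exact hp.one_lt.ne hx
    obtain ⟨χ, hχ⟩ := exists_char hp (A := Subgroup.zpowers x) (fun a b => by
      obtain ⟨_, i, rfl⟩ := a
      obtain ⟨_, j, rfl⟩ := b
      exact Subtype.ext (Commute.zpow_zpow_self x i j).eq) (fun a => by
      rw [← hx, ← Nat.card_zpowers]; exact pow_card_eq_one') _ x1
    obtain ⟨m, hm⟩ := m1 x
    have uk : m ^ orderOf x ∈ f.ker := by rw [MonoidHom.mem_ker, map_pow, hm, pow_orderOf_eq_one]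
    rw [hb] at uk
    have u1 : m.1.1 ^ orderOf x = 1 := congrArg (fun w : M => w.1.1) (Subgroup.mem_bot.1 uk)
    exact core hp _ χ _ hχ m.1.1 m.1.2 hm (fun y _ h => by simp [u1]) (Or.inl u1)

end Pool.Agent.H.MP_84bb83_al
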