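import Pool.Agent.H.MP_84bb83_al.C

set_option autoImplicit false

namespace Pool.Agent.H.MP_84bb83_al

open Function Pointwise Pool.Agent.H.MP_4f47f1_al Pool.Agent.H.MP_44c8f1_al
  Pool.Agent.H.MP_58728c_al Pool.Agent.H.MP_456268_al

def RT (M H : NF) (S : Type) [Group S] : Prop :=
  ∃ (G : Type) (_ : Group G), (M * H).mem G ∧ ∃ σ : res H.mem G →* S, Surjective σ

def PP (M H : NF) (Z : Type) [Group Z] : Prop :=
  ∀ E : Subgroup Z, E.Normal → (∀ (S : Type) [Group S] (σ : Z →* S), IsSimpleGroup S →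
    Surjective σ → RT M H S → ¬ E ≤ σ.ker) → M.mem E

def Dat (M H : NF) (p : ℕ) {Z : Type} [Group Z] (A : Subgroup Z) : Prop :=
  Finite Z ∧ A.Normal ∧ A ≠ ⊥ ∧ (∀ a ∈ A, ∀ b ∈ A, a * b = b * a) ∧ (∀ a ∈ A, a ^ p = 1) ∧
    (∀ z, (∀ a ∈ A, a * z = z * a) → z ^ p ∈ A) ∧ PP M H Z

def lp (M H : NF) (p : ℕ) : Cl := fun X _ => ∃ (Z : Type) (_ : Group Z) (π : Z →* X)
  (A : Subgroup Z), Surjective π ∧ A ≤ π.ker ∧ Dat M H p A

lemma ker_ne {Z S : Type} [Group Z] [Group S] (σ : Z →* S) (hs : IsSimpleGroup S)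
    (h : Surjective σ) : ¬ ⊤ ≤ σ.ker := fun h2 => by
  obtain ⟨y, hy⟩ := exists_ne (1 : S)
  obtain ⟨x, rfl⟩ := h y
  exact hy (h2 (Subgroup.mem_top x))

lemma lp_le {M H : NF} {p : ℕ} {X : Type} [Group X] (h : lp M H p X) : M.mem X := by
  obtain ⟨Z, _, π, A, h1, -, -, -, -, -, -, -, h2⟩ := h
  exact M.ok.2.1 _ _ π h1 (M.ok.iso Subgroup.topEquiv
    (h2 ⊤ inferInstance fun S _ σ a b _ => ker_ne σ a b))

lemma phi_lp (M H : NF) (p : ℕ) : Phi (lp M H p) := by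
  refine ⟨fun G _ h => M.ok.1 G (lp_le h), ?_, ?_⟩
  · rintro G Y _ _ f hf ⟨Z, _, π, A, h1, h2, h3⟩
    refine ⟨Z, _, f.comp π, A, hf.comp h1, fun a ha => ?_, h3⟩
    have : π a = 1 := h2 ha
    simp [this]
  · rintro G _ N1 N2 _ _ hb ⟨E, _, g, A, sg, a0, a1, a2, a3, a4, a5, a6, a7⟩
      ⟨E', _, g', B, sg', b0, b1, b2, b3, b4, b5, b6, b7⟩
    have := phi_fin.2.2 G N1 N2 hb (Finite.of_surjective g sg) (Finite.of_surjective g' sg')
    let S : Subgroup (E × E' × G) :=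
      MonoidHom.eqLocus (g.comp (MonoidHom.fst _ _))
        ((QuotientGroup.mk' N1).comp ((MonoidHom.snd _ _).comp (MonoidHom.snd _ _))) ⊓
      MonoidHom.eqLocus (g'.comp ((MonoidHom.fst _ _).comp (MonoidHom.snd _ _)))
        ((QuotientGroup.mk' N2).comp ((MonoidHom.snd _ _).comp (MonoidHom.snd _ _)))
    have hS : ∀ x : E × E' × G, x ∈ S ↔ g x.1 = (x.2.2 : G ⧸ N1) ∧ g' x.2.1 = (x.2.2 : G ⧸ N2) :=
      fun x => Iff.rfl
    let p1 : S →* E := (MonoidHom.fst _ _).comp S.subtype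
    let p2 : S →* E' := ((MonoidHom.fst _ _).comp (MonoidHom.snd _ _)).comp S.subtype
    let p3 : S →* G := ((MonoidHom.snd _ _).comp (MonoidHom.snd _ _)).comp S.subtype
    have q1 : Surjective p1 := by
      intro e
      obtain ⟨x, hx⟩ := QuotientGroup.mk_surjective (g e)
      obtain ⟨e', he'⟩ := sg' (x : G ⧸ N2)
      exact ⟨⟨(e, e', x), (hS _).2 ⟨hx.symm, he'⟩⟩, rfl⟩
    have q2 : Surjective p2 := by
      intro e'
      obtain ⟨x, hx⟩ := QuotientGroup.mk_surjective (g' e')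
      obtain ⟨e, he⟩ := sg (x : G ⧸ N1)
      exact ⟨⟨(e, e', x), (hS _).2 ⟨he, hx.symm⟩⟩, rfl⟩
    have q3 : Surjective p3 := by
      intro x
      obtain ⟨e', he'⟩ := sg' (x : G ⧸ N2)
      obtain ⟨e, he⟩ := sg (x : G ⧸ N1)
      exact ⟨⟨(e, e', x), (hS _).2 ⟨he, he'⟩⟩, rfl⟩
    have k3 : ∀ x : S, g (p1 x) = 1 → g' (p2 x) = 1 → p3 x = 1 := fun x h1 h2 => by
      obtain ⟨c1, c2⟩ := (hS _).1 x.2
      have : x.1.2.2 ∈ N1 ⊓ N2 := ⟨(QuotientGroup.eq_one_iff _).1 (c1.symm.trans h1),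
        (QuotientGroup.eq_one_iff _).1 (c2.symm.trans h2)⟩
      rw [hb] at this
      exact this
    have ex : ∀ x y : S, p1 x = p1 y → p2 x = p2 y → p3 x = p3 y → x = y := fun x y a b c =>
      Subtype.ext (Prod.ext a (Prod.ext b c))
    have k4 : ∀ x ∈ A.comap p1 ⊓ B.comap p2, p3 x = 1 := fun x hx => k3 x (a0 hx.1) (b0 hx.2)
    have l1 : ∀ a ∈ A, ∃ x ∈ A.comap p1 ⊓ B.comap p2, p1 x = a := fun a ha =>
      ⟨⟨(a, 1, 1), (hS _).2 ⟨a0 ha, map_one g'⟩⟩, ⟨ha, B.one_mem⟩, rfl⟩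
    have l2 : ∀ a ∈ B, ∃ x ∈ A.comap p1 ⊓ B.comap p2, p2 x = a := fun a ha =>
      ⟨⟨(1, a, 1), (hS _).2 ⟨map_one g, b0 ha⟩⟩, ⟨A.one_mem, ha⟩, rfl⟩
    refine ⟨S, _, p3, A.comap p1 ⊓ B.comap p2, q3, k4, inferInstance, inferInstance, fun h => a3 ?_,
      fun a ha b hb => ex _ _ ?_ ?_ ?_, fun a ha => ex _ _ ?_ ?_ ?_, fun z hz => ⟨?_, ?_⟩,
      fun D hD h => ?_⟩
    · rw [eq_bot_iff]
      intro a ha
      obtain ⟨x, hx, rfl⟩ := l1 a ha
      rw [h] at hx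
      rw [Subgroup.mem_bot.1 hx, map_one]; rfl
    · rw [map_mul, map_mul]; exact a4 _ ha.1 _ hb.1
    · rw [map_mul, map_mul]; exact b4 _ ha.2 _ hb.2
    · rw [map_mul, map_mul, k4 a ha, k4 b hb]
    · rw [map_pow, map_one]; exact a5 _ ha.1
    · rw [map_pow, map_one]; exact b5 _ ha.2
    · rw [map_pow, k4 a ha, one_pow, map_one]
    · refine a6 (p1 z) fun a ha => ?_
      obtain ⟨x, hx, rfl⟩ := l1 a ha
      rw [← map_mul, hz x hx, map_mul]
    · refine b6 (p2 z) fun a ha => ?_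
      obtain ⟨x, hx, rfl⟩ := l2 a ha
      rw [← map_mul, hz x hx, map_mul]
    · refine M.ok.qr (p1.subgroupMap D) (p2.subgroupMap D) (MonoidHom.id _)
        (p1.subgroupMap_surjective D) (p2.subgroupMap_surjective D) surjective_id
        (a7 _ (hD.map _ q1) fun T _ σ s1 s2 s3 s4 => h T (σ.comp p1) s1 (s2.comp q1) s3
          (Subgroup.map_le_iff_le_comap.1 s4))
        (b7 _ (hD.map _ q2) fun T _ σ s1 s2 s3 s4 => h T (σ.comp p2) s1 (s2.comp q2) s3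
          (Subgroup.map_le_iff_le_comap.1 s4)) ?_
      rintro x ⟨h1, h2⟩
      have h1' : p1 x = 1 := congrArg Subtype.val h1
      have h2' : p2 x = 1 := congrArg Subtype.val h2
      exact Subtype.ext (ex x 1 h1' h2' (k3 x (by rw [h1', map_one]) (by rw [h2', map_one])))

lemma kk2 {G C : Type} [Group G] [Group C] (N : Subgroup G) (ρ : G →* C) (hρ : Surjective ρ)
    (hN : ∀ x, x ∈ N ↔ ρ x = 1) : ∃ (κ : G →* Wr N C) (s : C → G), (∀ x, (κ x).right = ρ x) ∧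
      ∀ x ∈ N, ∀ q, ((κ x).left q : G) = (s q)⁻¹ * x * s q := by
  choose σ hσ using hρ
  refine ⟨MonoidHom.mk' (fun x => ⟨fun q => ⟨(σ q)⁻¹ * x * σ ((ρ x)⁻¹ * q), by
    rw [hN]; simp [hσ]⟩, ρ x⟩) (fun a b => by
      ext q
      · simp [mul_assoc]
      · simp), σ, fun _ => rfl, fun x hx q => ?_⟩
  show (σ q)⁻¹ * x * σ ((ρ x)⁻¹ * q) = _
  rw [(hN x).1 hx, inv_one, one_mul]

lemma fin_step {M H : NF} (hs : Sat (M * H).mem) {p : ℕ} (hp : p.Prime) {Z X K Y C : Type} [Group Z]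
    [Group X] [Group K] [Group Y] [Group C] (ρ : Y →* C) (hρ : Surjective ρ)
    (hN : ∀ x, x ∈ res H.mem Y ↔ ρ x = 1) {A : Subgroup Z} (hA : Dat M H p A) (π : Z →* X)
    (hπ : Surjective π) (hk : A ≤ π.ker) (hY : (M * H).mem Y) (ψ : Y →* K) (hψ : Surjective ψ)
    (φ : res H.mem Y →* X) (hφ : Surjective φ) (h1 : ∀ x, φ x = 1 → ψ x = 1)
    (hO : ∀ Q : Subgroup K, Q.Normal → IsPGroup p Q → Q = ⊥)
    (hc : ∀ (S : Type) [Group S] (σ : Z →* S), IsSimpleGroup S → Surjective σ → RT M H S →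
      π.ker ≤ σ.ker ∨ ¬ H.mem (Wr S C)) : (M * H).mem (Wr (Zc p) K) := by
  classical
  obtain ⟨a1, a2, a3, a4, a5, a6, a7⟩ := hA
  have := hY.1
  have := Finite.of_surjective ρ hρ
  obtain ⟨κ, s, k1, k2⟩ := kk2 (res H.mem Y) ρ hρ hN
  let Γ : Subgroup (Y × Wr Z C) := MonoidHom.eqLocus
    (((wmap C φ).comp κ).comp (MonoidHom.fst _ _)) ((wmap C π).comp (MonoidHom.snd _ _))
  have mΓ : ∀ x : Y × Wr Z C, x ∈ Γ ↔ (∀ q, φ ((κ x.1).left q) = π (x.2.left q)) ∧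
      ρ x.1 = x.2.right := fun x => by
    rw [← k1]
    exact ⟨fun h => ⟨congrFun (congrArg RegularWreathProduct.left h),
      congrArg RegularWreathProduct.right h⟩, fun h => RegularWreathProduct.ext (funext h.1) h.2⟩
  let p1 : Γ →* Y := (MonoidHom.fst _ _).comp Γ.subtype
  let p2 : Γ →* Wr Z C := (MonoidHom.snd _ _).comp Γ.subtype
  have q1 : Surjective p1 := fun y => by
    obtain ⟨w, hw⟩ := wmap_surj C π hπ (wmap C φ (κ y))
    exact ⟨⟨(y, w), hw.symm⟩, rfl⟩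
  have r1 : ∀ x : Γ, (p2 x).right = ρ (p1 x) := fun x => ((mΓ _).1 x.2).2.symm
  have r2 : ∀ x : Γ, p1 x ∈ res H.mem Y → (p2 x).right = 1 := fun x hx =>
    (r1 x).trans ((hN _).1 hx)
  have r3 : ∀ x ∈ res H.mem Γ, p1 x ∈ res H.mem Y := fun x hx => (resHom H p1 q1 ⟨x, hx⟩).2
  have bas : ∀ u : C → Z, (∀ q, u q ∈ π.ker) → ∃ x : Γ, p1 x = 1 ∧ p2 x = ⟨u, 1⟩ := fun u hu =>
    ⟨⟨(1, ⟨u, 1⟩), (mΓ _).2 ⟨fun q => by simpa using (hu q).symm, map_one ρ⟩⟩, rfl, rfl⟩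
  have ex : ∀ z c, ∃ x : Γ, p1 x ∈ res H.mem Y ∧ (p2 x).left c = z := fun z c => by
    obtain ⟨y, hy⟩ := hφ (π z)
    have hy2 : s c * y * (s c)⁻¹ ∈ res H.mem Y := (res_normal _ _).conj_mem _ y.2 _
    obtain ⟨x, hx⟩ := q1 (s c * y * (s c)⁻¹)
    have e : π ((p2 x).left c) = π z := by
      rw [← hy]
      refine (((mΓ _).1 x.2).1 c).symm.trans (congrArg φ (Subtype.ext ?_))
      show ((κ (p1 x)).left c : Y) = _
      rw [hx, k2 _ hy2]; group
    obtain ⟨u, u1, u2⟩ := bas (fun _ => z * ((p2 x).left c)⁻¹) fun _ => by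
      simp [MonoidHom.mem_ker, e]
    refine ⟨u * x, by rw [map_mul, u1, one_mul, hx]; exact hy2, ?_⟩
    rw [map_mul, u2]; simp
  let evc : C → (res H.mem Γ →* Z) := fun c => MonoidHom.mk' (fun x => (p2 x).left c) fun a b => by
    simp [r2 _ (r3 _ a.2)]
  have hE : ∀ c, M.mem (evc c).range := fun c => by
    refine a7 _ ⟨?_⟩ fun S _ σ s1 s2 s3 s4 => ?_
    · rintro _ ⟨x, rfl⟩ z
      obtain ⟨g, g1, rfl⟩ := ex z c
      refine ⟨⟨_, (res_normal _ _).conj_mem _ x.2 g⟩, ?_⟩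
      simp [evc, r2 _ g1, r2 _ (r3 _ x.2)]
    by_cases hle : π.ker ≤ σ.ker
    · obtain ⟨y, hy⟩ := exists_ne (1 : S)
      obtain ⟨z, rfl⟩ := s2 y
      obtain ⟨g, g1, rfl⟩ := ex z c
      obtain ⟨x, hx⟩ := resHom_surj H p1 q1 ⟨_, g1⟩
      have e1 : p1 x = p1 g := congrArg Subtype.val hx
      have e2 : π ((p2 x).left c) = π ((p2 g).left c) :=
        (((mΓ _).1 x.1.2).1 c).symm.trans ((congrArg (fun y => φ ((κ y).left c)) e1).trans
          (((mΓ _).1 g.2).1 c))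
      have e3 : σ ((p2 x).left c) = 1 := s4 ⟨x, rfl⟩
      have e4 : ((p2 x).left c)⁻¹ * (p2 g).left c ∈ σ.ker := hle (by simp [e2])
      rw [MonoidHom.mem_ker, map_mul, map_inv, e3] at e4
      exact hy (by simpa using e4)
    refine (hc S σ s1 s2 s3).resolve_left hle ?_
    have t1 : π.ker.map σ = ⊤ := (s1.eq_bot_or_eq_top_of_normal _
      (Subgroup.Normal.map inferInstance σ s2)).resolve_left fun h =>
        hle ((Subgroup.map_eq_bot_iff _).1 h)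
    have t2 : Surjective ((wmap C σ).comp p2) := fun w => by
      obtain ⟨y, hy⟩ := hρ w.right
      obtain ⟨x, rfl⟩ := q1 y
      choose u hu hu' using fun q => (t1 ▸ Subgroup.mem_top (w.left q * (σ ((p2 x).left q))⁻¹) :
        _ ∈ π.ker.map σ)
      obtain ⟨v, -, v2⟩ := bas u hu
      refine ⟨v * x, ?_⟩
      ext q
      · simp [wmap, v2, hu']
      · simp [wmap, v2, r1, hy]
    refine mem_of_res_le H _ t2 fun x hx => ?_
    rw [MonoidHom.mem_ker]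
    ext q
    · obtain ⟨y, hy⟩ := hρ (c * q⁻¹)
      obtain ⟨g, rfl⟩ := q1 y
      have e3 : σ ((p2 (g * x * g⁻¹)).left c) = 1 :=
        s4 ⟨⟨_, (res_normal _ _).conj_mem _ hx g⟩, rfl⟩
      simpa [wmap, r2 _ (r3 _ hx), r1 g, hy] using e3
    · exact r2 _ (r3 _ hx)
  have hΓ : (M * H).mem Γ := by
    refine ⟨inferInstance, mem_of_res_bot M (eq_bot_iff.2 fun x hx => ?_)⟩
    rw [Subgroup.mem_bot]
    apply Subtype.ext; apply Subtype.ext
    refine Prod.ext ((mem_resHom_ker _ _ _ _).1 (res_le M _ (resHom_surj H p1 q1) hY.2 hx)) ?_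
    ext q
    · exact congrArg Subtype.val (res_le M _ (evc q).rangeRestrict_surjective (hE q) hx)
    · exact r2 _ (r3 _ x.2)
  let B : Subgroup Γ :=
    { carrier := {x | p1 x = 1 ∧ ∀ q, (p2 x).left q ∈ A}
      one_mem' := ⟨map_one _, fun q => by simp⟩
      mul_mem' := fun {a b} ha hb => ⟨by rw [map_mul, ha.1, hb.1, mul_one], fun q => by
        rw [map_mul]; exact A.mul_mem (ha.2 _) (hb.2 _)⟩
      inv_mem' := fun {a} ha => ⟨by rw [map_inv, ha.1, inv_one], fun q => by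
        rw [map_inv]; exact A.inv_mem (ha.2 _)⟩ }
  have b0 : ∀ x ∈ B, (p2 x).right = 1 := fun x hx => r2 x (by rw [hx.1]; exact Subgroup.one_mem _)
  have ex2 : ∀ x y : Γ, p1 x = p1 y → p2 x = p2 y → x = y := fun x y a b =>
    Subtype.ext (Prod.ext a b)
  have b1 : B.Normal := ⟨fun n hn g => ⟨by simp [hn.1], fun q => by
    simpa [b0 n hn] using a2.conj_mem _ (hn.2 ((p2 g).right⁻¹ * q)) ((p2 g).left q)⟩⟩
  have b2 : ∀ q, ∀ a ∈ A, ∃ x ∈ B, p2 x = sg q a := fun q a ha => by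
    have : ∀ y, (sg q a).left y ∈ A := fun y => by
      by_cases hy : y = q
      · rw [hy, sg_self]; exact ha
      · rw [sg_ne _ _ _ hy]; exact A.one_mem
    obtain ⟨x, x1, x2⟩ := bas _ fun y => hk (this y)
    exact ⟨x, ⟨x1, fun y => by rw [x2]; exact this y⟩, x2⟩
  obtain ⟨⟨a, ha⟩, ha1⟩ := Subgroup.ne_bot_iff_exists_ne_one.1 a3
  have ha2 : a ≠ 1 := fun h => ha1 (Subtype.ext h)
  refine lemT (M * H) hs hp hΓ B (fun h => ?_) (fun x hx y hy => ex2 _ _ ?_ ?_)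
    (fun x hx => ex2 _ _ ?_ ?_) (ψ.comp p1) (hψ.comp q1) ?_
  · obtain ⟨x, x1, x2⟩ := b2 1 a ha
    rw [h] at x1
    rw [Subgroup.mem_bot.1 x1, map_one] at x2
    exact ha2 ((sg_self (1 : C) a).symm.trans (by rw [← x2]; rfl))
  · rw [map_mul, map_mul, hx.1, hy.1]
  · rw [map_mul, map_mul]
    ext q
    · simpa [b0 x hx, b0 y hy] using a4 _ (hx.2 q) _ (hy.2 q)
    · simp [b0 x hx, b0 y hy]
  · rw [map_pow, hx.1, one_pow, map_one]
  · rw [map_pow, map_one]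
    have := base_pow _ (b0 x hx) p
    ext q
    · rw [this.1]; exact a5 _ (hx.2 q)
    · exact this.2
  · rw [← Subgroup.map_eq_bot_iff]
    refine hO _ (Subgroup.Normal.map Subgroup.normal_centralizer _ (hψ.comp q1)) ?_
    rintro ⟨_, g, hg, rfl⟩
    refine ⟨1, Subtype.ext ?_⟩
    have c1 : ∀ q, ∀ a ∈ A, sg q a * p2 g = p2 g * sg q a := fun q a ha => by
      obtain ⟨x, x1, x2⟩ := b2 q a ha
      rw [← x2, ← map_mul, hg x x1, map_mul]
    have c2 : (p2 g).right = 1 := by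
      by_contra hne
      have := congrFun (congrArg RegularWreathProduct.left (c1 1 a ha)) 1
      simp [sg_right, sg_self, sg_ne 1 a _ (inv_ne_one.2 hne)] at this
      exact ha2 this
    have c3 : p1 g ∈ res H.mem Y := (hN _).2 ((r1 g).symm.trans c2)
    have c4 : (p2 g).left 1 ^ p ∈ A := a6 _ fun a ha => by
      simpa [sg_right, sg_self, c2] using
        congrFun (congrArg RegularWreathProduct.left (c1 1 a ha)) 1
    have c5 := h1 ((κ (p1 g)).left 1 ^ p) (by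
      rw [map_pow, show φ ((κ (p1 g)).left 1) = π ((p2 g).left 1) from ((mΓ _).1 g.2).1 1,
        ← map_pow]
      exact hk c4)
    rw [SubgroupClass.coe_pow, k2 _ c3, map_pow, map_mul, map_mul, map_inv,
      ← inv_inv (ψ (s 1)), inv_inv (ψ (s 1))⁻¹, conj_pow] at c5
    simpa using conj_eq_one_iff.1 c5

end Pool.Agent.H.MP_84bb83_al
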