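import Pool.Agent.H.MP_84bb83_al.D

set_option autoImplicit false

namespace Pool.Agent.H.MP_84bb83_al

open Function Pointwise Pool.Agent.H.MP_4f47f1_al Pool.Agent.H.MP_44c8f1_al
  Pool.Agent.H.MP_58728c_al Pool.Agent.H.MP_456268_al

lemma not_abs' {M H : NF} {S : Type} [Group S] (hs : IsSimpleGroup S) (h : RT M H S) {q : ℕ}
    (hq : IsPGroup q S) : ¬ Le (Np q * H) H := fun hle => by
  obtain ⟨G, _, ⟨_, -⟩, f, b⟩ := h
  have h1 := res_le (Np q) f b ⟨Finite.of_surjective f b, hq⟩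
  have h2 : Np q * H = H := Le.anti hle (le_mul _ H)
  have h3 := res_mul (Np q) H G
  rw [h2] at h3
  refine ker_ne f hs b fun x _ => ?_
  obtain ⟨z, hz, hz'⟩ : (x : G) ∈ (res (Np q).mem (res H.mem G)).map (res H.mem G).subtype :=
    h3 ▸ x.2
  rw [Subtype.ext hz'] at hz
  exact h1 hz

lemma exists_big (U : NF) (m : ℕ) : ∃ (C : Type) (_ : Group C), U.mem C ∧ ∀ p, p.Prime → p < m →
    ¬ Le (Np p * U) U → ∀ (S : Type) (_ : Group S), IsSimpleGroup S → IsPGroup p S →
      ¬ U.mem (Wr S C) := by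
  induction m with
  | zero => exact ⟨PUnit, _, U.ne, fun p _ h => by omega⟩
  | succ m ih =>
    obtain ⟨W, _, hW, w2⟩ := ih
    by_cases hm : m.Prime ∧ ¬ Le (Np m * U) U
    · obtain ⟨C, _, hC, h⟩ : ∃ (C : Type) (_ : Group C), U.mem C ∧ ∀ (S : Type) (_ : Group S),
          IsSimpleGroup S → IsPGroup m S → ¬ U.mem (Wr S (C × W)) := by
        by_contra hc
        push Not at hc
        exact hm.2 (l2 hm.1 U W hW fun C _ hC => hc C _ hC)
      have := U.ok.1 C hC
      have := U.ok.1 W hW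
      refine ⟨C × W, _, mem_prod U hC hW, fun p hp hpm hn S _ s1 s2 s3 => ?_⟩
      rcases Nat.lt_succ_iff_lt_or_eq.1 hpm with h' | rfl
      · have := fin_base U s3
        exact w2 p hp h' hn S _ s1 s2 (wr_mono U (pg_comm hp s1 s2) (MonoidHom.snd C W)
          Prod.snd_surjective s3)
      · exact h S _ s1 s2 s3
    · refine ⟨W, _, hW, fun p hp hpm hn => w2 p hp ?_ hn⟩
      rcases Nat.lt_succ_iff_lt_or_eq.1 hpm with h' | rfl
      · exact h'
      · exact (hm ⟨hp, hn⟩).elim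

lemma prod_surj {D X S : Type} [Group D] [Group X] [Group S] (hs : IsSimpleGroup S) (a : D →* X)
    (b : D →* S) (ha : Surjective a) (h : ¬ a.ker ≤ b.ker) (hb : Surjective b) :
    Surjective (a.prod b) := by
  have t1 : a.ker.map b = ⊤ := (hs.eq_bot_or_eq_top_of_normal _
    (Subgroup.Normal.map inferInstance b hb)).resolve_left fun h' =>
      h ((Subgroup.map_eq_bot_iff _).1 h')
  rintro ⟨x, s⟩
  obtain ⟨d, rfl⟩ := ha x
  obtain ⟨e, he, he'⟩ : s * (b d)⁻¹ ∈ a.ker.map b := t1 ▸ Subgroup.mem_top _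
  have he2 : a e = 1 := he
  exact ⟨e * d, by simp [he2, he']⟩

lemma main {M H : NF} (hs : Sat (M * H).mem) {p : ℕ} (hp : p.Prime) {K : Type} [Group K] [Finite K]
    (h : lp M H p (res H.mem K)) (hO : ∀ Q : Subgroup K, Q.Normal → IsPGroup p Q → Q = ⊥) :
    (M * H).mem (Wr (Zc p) K) := by
  have hK : (M * H).mem K := ⟨inferInstance, lp_le h⟩
  obtain ⟨Z, _, π, A, h1, h2, hA⟩ := h
  have := hA.1
  have key : ∀ n : ℕ, ∀ (X : Type) [Group X] (π : Z →* X), Nat.card π.ker = n → Surjective π →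
      A ≤ π.ker → ∀ (Y : Type) [Group Y] (ψ : Y →* K) (φ : res H.mem Y →* X), (M * H).mem Y →
      Surjective ψ → Surjective φ → (∀ x, φ x = 1 → ψ x = 1) → (M * H).mem (Wr (Zc p) K) := by
    intro n
    induction n using Nat.strong_induction_on with
    | _ n ih =>
      intro X _ π hn hπ hk Y _ ψ φ hY hψ hφ h3
      have := hY.1
      by_cases hc : ∃ (S : Type) (_ : Group S) (σ : Z →* S), IsSimpleGroup S ∧ Surjective σ ∧
        RT M H S ∧ ¬ π.ker ≤ σ.ker ∧ ¬ ∀ a b : S, a * b = b * a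
      · obtain ⟨S, _, σ, s1, s2, ⟨G, _, hG, τ, hτ⟩, s4, s5⟩ := hc
        have := hG.1
        let a := φ.comp (resHom H (MonoidHom.fst Y G) Prod.fst_surjective)
        let b := τ.comp (resHom H (MonoidHom.snd Y G) Prod.snd_surjective)
        have sb : Surjective b := hτ.comp (resHom_surj H _ _)
        refine ih (Nat.card (π.prod σ).ker) ?_ (X × S) (π.prod σ) rfl
          (prod_surj s1 π σ hπ s4 s2) ?_ (Y × G) (ψ.comp (MonoidHom.fst _ _)) (a.prod b)
          (mem_prod _ hY hG) (hψ.comp Prod.fst_surjective)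
          (prod_surj s1 a b (hφ.comp (resHom_surj H _ _)) (fun hle => s5 fun s t => ?_) sb)
          fun x hx => h3 _ (congrArg Prod.fst hx)
        · rw [← hn, MonoidHom.ker_prod]
          exact lt_of_not_ge fun h => s4 (inf_eq_left.1 (Subgroup.eq_of_le_of_card_ge inf_le_left h))
        · rw [MonoidHom.ker_prod]
          refine le_inf hk ((Subgroup.map_eq_bot_iff _).1 ((s1.eq_bot_or_eq_top_of_normal _
            (hA.2.1.map σ s2)).resolve_right fun ht => s5 fun s t => ?_))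
          obtain ⟨x, hx, rfl⟩ : s ∈ A.map σ := ht ▸ Subgroup.mem_top _
          obtain ⟨y, hy, rfl⟩ : t ∈ A.map σ := ht ▸ Subgroup.mem_top _
          rw [← map_mul, hA.2.2.2.1 x hx y hy, map_mul]
        · obtain ⟨x, rfl⟩ := sb s
          obtain ⟨y, rfl⟩ := hτ t
          let x' : res H.mem (Y × G) := ⟨_, (res_normal _ _).conj_mem _ x.2 (1, y)⟩
          have e1 : a x' = a x := congrArg φ (Subtype.ext (by simp [x', resHom]))
          have e2 : b x' = τ y * b x * (τ y)⁻¹ := by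
            show τ _ = τ y * τ _ * _
            rw [← map_inv, ← map_mul, ← map_mul]
            exact congrArg τ (Subtype.ext rfl)
          have e3 : b (x' * x⁻¹) = 1 := hle (by simp [MonoidHom.mem_ker, e1])
          rw [map_mul, map_inv, e2, mul_inv_eq_one, mul_inv_eq_iff_eq_mul] at e3
          exact e3.symm
      · obtain ⟨B, _, hB, hB2⟩ := exists_big H (Nat.card Z + 1)
        have := H.ok.1 B hB
        refine fin_step hs hp (QuotientGroup.mk' (res H.mem (Y × B))) (QuotientGroup.mk'_surjective _)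
          (fun x => (QuotientGroup.eq_one_iff x).symm) hA π hπ hk (mem_prod _ hY (le_mul M H _ hB))
          (ψ.comp (MonoidHom.fst _ _)) (hψ.comp Prod.fst_surjective)
          (φ.comp (resHom H (MonoidHom.fst Y B) Prod.fst_surjective))
          (hφ.comp (resHom_surj H _ _)) (fun x hx => h3 _ hx) hO fun S _ σ s1 s2 s3 => ?_
        by_contra hcon
        push Not at hcon
        have s5 : ∀ a b : S, a * b = b * a := by
          by_contra s5
          exact hc ⟨S, _, σ, s1, s2, s3, hcon.1, s5⟩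
        have := Finite.of_surjective σ s2
        obtain ⟨a1, a2⟩ := simple_comm s1 s5
        exact hB2 _ a1 (Nat.lt_succ_of_le (Nat.card_le_card_of_surjective σ s2))
          (not_abs' s1 s3 a2) S _ s1 a2 (wr_mono H s5 _ (lift_surj _ (MonoidHom.snd Y B)
            (res_le H _ Prod.snd_surjective hB) Prod.snd_surjective) hcon.2)
  exact key _ _ π rfl h1 h2 K (MonoidHom.id K) (MonoidHom.id _) hK surjective_id surjective_id
    fun x hx => congrArg Subtype.val hx

def LP (M H : NF) (p : ℕ) (h : lp M H p PUnit) : NF := ⟨lp M H p, phi_lp M H p, h⟩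

def LL (M H : NF) : NF where
  mem := fun T _ => Finite T ∧ ∀ p (hp : p.Prime), p ∣ Nat.card T →
    ∃ h : lp M H p PUnit, (PNF p hp * LP M H p h).mem T
  ok := by
    refine ⟨fun G _ h => h.1, ?_, ?_⟩
    · rintro G Y _ _ f hf ⟨_, h⟩
      refine ⟨Finite.of_surjective f hf, fun p hp hd => ?_⟩
      obtain ⟨a, b⟩ := h p hp (hd.trans (Subgroup.card_dvd_of_surjective f hf))
      exact ⟨a, (NF.ok _).2.1 _ _ f hf b⟩
    · rintro G _ N1 N2 _ _ hb ⟨f1, h1⟩ ⟨f2, h2⟩
      refine ⟨phi_fin.2.2 G N1 N2 hb f1 f2, fun p hp hd => ?_⟩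
      obtain ⟨a⟩ : Nonempty (lp M H p PUnit) := by
        rcases hp.dvd_mul.1 (((phi_PiC (Nat.card (G ⧸ N1) * Nat.card (G ⧸ N2))).2.2 G N1 N2 hb
          ⟨f1, fun q _ h => h.mul_right _⟩ ⟨f2, fun q _ h => h.mul_left _⟩).2 p hp hd) with h | h
        · exact ⟨(h1 p hp h).1⟩
        · exact ⟨(h2 p hp h).1⟩
      have key : ∀ (T : Type) [Group T] [Finite T], ¬ p ∣ Nat.card T →
          (PNF p hp * LP M H p a).mem T := fun T _ _ h =>
        ⟨inferInstance, PN_of fun h' => h (h'.trans (Subgroup.card_subgroup_dvd_card _))⟩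
      refine ⟨a, (NF.ok _).2.2 G N1 N2 hb ?_ ?_⟩
      · by_cases h : p ∣ Nat.card (G ⧸ N1)
        · exact (h1 p hp h).2
        · exact key _ h
      · by_cases h : p ∣ Nat.card (G ⧸ N2)
        · exact (h2 p hp h).2
        · exact key _ h
  ne := ⟨inferInstance, fun p hp h => (hp.one_lt.ne' (by simpa using h)).elim⟩

lemma sat_LL (M H : NF) : Sat (LL M H).mem := by
  rintro G _ _ ⟨_, h⟩
  refine ⟨inferInstance, fun p hp hd => ?_⟩
  obtain ⟨a, b⟩ := h p hp ((sat_PiC _ G ⟨inferInstance, fun q _ h => h⟩).2 p hp hd)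
  exact ⟨a, sat_PN hp _ G b⟩

lemma cent_eq {Y : Type} [Group Y] (V : Subgroup Y) [hV : V.Normal] (hb : V ≠ ⊥)
    (hM : ∀ N : Subgroup Y, N.Normal → N ≠ ⊥ → V ≤ N) (hF : frattini Y = ⊥) (c : Y)
    (h : ∀ v ∈ V, v * c = c * v) (hc : ∀ a ∈ V, ∀ b ∈ V, a * b = b * a) : c ∈ V := by
  obtain ⟨S, hS, hVS⟩ : ∃ S : Subgroup Y, IsCoatom S ∧ ¬ V ≤ S := by
    by_contra hcon
    push Not at hcon
    apply hb
    rw [eq_bot_iff, ← hF]
    exact le_iInf₂ fun S hS => hcon S hS
  have htop : S ⊔ V = ⊤ := hS.2 _ (left_lt_sup.2 hVS)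
  have hD : Subgroup.centralizer (V : Set Y) ⊓ S = ⊥ := by
    by_contra hne
    refine hVS ((hM _ (normal_of_gen S V _ htop ?_ ?_) hne).trans inf_le_right)
    · intro s hs d hd
      exact ⟨(Subgroup.normal_centralizer (H := V)).conj_mem _ hd.1 _,
        S.mul_mem (S.mul_mem hs hd.2) (S.inv_mem hs)⟩
    · intro v hv d hd
      exact hd.1 v hv
  have : c ∈ (S : Set Y) * (V : Set Y) := by rw [← Subgroup.mul_normal, htop]; trivial
  obtain ⟨s, hs, v, hv, rfl⟩ := this
  have : s ∈ Subgroup.centralizer (V : Set Y) ⊓ S := by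
    refine ⟨?_, hs⟩
    rw [show s = s * v * v⁻¹ by group]
    exact Subgroup.mul_mem _ h (Subgroup.inv_mem _ fun a ha => hc a ha v hv)
  rw [hD] at this
  show s * v ∈ V
  rw [Subgroup.mem_bot.1 this, one_mul]; exact hv

lemma le1 {M H : NF} (hs : Sat (M * H).mem) : Le (LL M H * H) (M * H) := by
  refine ind (M * H).mem (LL M H * H).mem (NF.ok _).1 (fun G _ N _ hG => (NF.ok _).2.1 _ _ _
    (QuotientGroup.mk'_surjective N) hG) ?_
  rintro W _ ⟨_, -, hL⟩ hq
  by_contra hK
  obtain ⟨R, hRn, hRb, hR⟩ := monolith ⟨(M * H).mem, (M * H).ok⟩ (M * H).ne hK hq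
  have hF : frattini W = ⊥ := by
    by_contra hne
    exact hK (hs W (hq _ hne))
  obtain ⟨p, hp, l, hl, ho⟩ := exists_ord R hRb
  have := Fact.mk hp
  obtain ⟨a, b⟩ := hL p hp (ho ▸ Subgroup.orderOf_dvd_natCard _
    (hR _ inferInstance (fun h => hK (le_mul M H _ (mem_of_res_bot H h))) hl))
  have b2 : (PNF p hp * (LP M H p a * H)).mem W := by
    rw [← mul_assoc]; exact ⟨inferInstance, b⟩
  have le : Le (LP M H p a * H) (M * H) := fun G _ h => ⟨h.1, lp_le h.2⟩
  have hY : res (LP M H p a * H).mem W ≠ ⊥ := fun h => hK (le _ (mem_of_res_bot _ h))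
  obtain ⟨J, j1, j2, j3⟩ := PN_amb hp _ b2.2
  have hJ : J = ⊥ := by
    by_contra hne
    exact j2 l (hR J j1 hne hl) (ho ▸ dvd_rfl)
  have pc : ∀ Q : Subgroup W, Q.Normal → IsPGroup p Q → Q ≠ ⊥ →
      ∀ z ∈ R, z ^ p = 1 ∧ ∀ v ∈ Q, v * z = z * v := fun Q h1 h2 h3 => by
    have := h2.isNilpotent
    obtain ⟨r, hr, Z, z1, z2, z3⟩ := elab_sub Q h3
    have e : p = r := (Nat.prime_dvd_prime_iff_eq hp hr).1
      (ho ▸ orderOf_dvd_of_pow_eq_one (z3 l (hR Z z1 z2 hl)).2.1)
    exact fun z hz => e ▸ (z3 z (hR Z z1 z2 hz)).2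
  have y1 : IsPGroup p (res (LP M H p a * H).mem W) := fun x => by
    obtain ⟨k, hk⟩ := j3 x x.2
    rw [hJ] at hk
    exact ⟨k, Subtype.ext hk⟩
  have r1 := pc _ inferInstance y1 hY
  have r2 : ∀ a ∈ R, ∀ b ∈ R, a * b = b * a := fun x hx y hy =>
    (r1 y hy).2 x (hR _ inferInstance hY hx)
  have r3 : ∀ Q : Subgroup W, Q.Normal → IsPGroup p Q → Q ≤ R := fun Q h1 h2 x hx => by
    by_cases h3 : Q = ⊥
    · rw [h3] at hx
      rw [Subgroup.mem_bot.1 hx]; exact R.one_mem
    exact cent_eq R hRb hR hF x (fun v hv => ((pc Q h1 h2 h3 v hv).2 x hx).symm) r2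
  have k1 : (LP M H p a * H).mem (W ⧸ R) := mem_of_res_le _ (QuotientGroup.mk' R)
    (QuotientGroup.mk'_surjective R) (by
      rw [QuotientGroup.ker_mk']; exact r3 _ inferInstance y1)
  have k2 := main hs hp k1.2 fun Q h1 h2 => by
    have := r3 _ (h1.comap (QuotientGroup.mk' R)) (h2.comap_of_ker_isPGroup _ (by
      rw [QuotientGroup.ker_mk']
      exact fun x => ⟨1, Subtype.ext (by rw [pow_one]; exact (r1 _ x.2).1)⟩))
    rw [eq_bot_iff]
    intro x hx
    obtain ⟨x, rfl⟩ := QuotientGroup.mk_surjective x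
    exact (QuotientGroup.eq_one_iff x).2 (this hx)
  have hk : ∀ x : (QuotientGroup.mk' R).ker, x.1 ∈ R := fun x => (QuotientGroup.eq_one_iff _).1 x.2
  have hA : (Ap p).mem (QuotientGroup.mk' R).ker := ⟨inferInstance, fun x y => Subtype.ext
    (r2 _ (hk x) _ (hk y)), fun x => Subtype.ext (r1 _ (hk x)).1⟩
  have h5 := Ap_le hp (KC (M * H) _ (hq R hRb)) (fun G _ hG => (KC (M * H) _ (hq R hRb)).ok.iso
    (mulEquivOfPrimeCardEq (p := p) (G := Zc p) (by simp) hG) ⟨inferInstance, k2⟩) _ hA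
  exact hK (kk _ _ (QuotientGroup.mk'_surjective R) hA.2.1 h5.2)

lemma lp_of {M H : NF} {p : ℕ} (hp : p.Prime) {K : Type} [Group K] [Finite K]
    (h : (M * H).mem (Wr (Zc p) K)) (hb : res H.mem K ≠ ⊥) : lp M H p (res H.mem K) := by
  have := Fact.mk hp
  have := h.1
  have t1 : (Multiplicative.ofAdd 1 : Zc p) ≠ 1 := fun h =>
    one_ne_zero (α := ZMod p) (congrArg Multiplicative.toAdd h)
  set π := resHom H _ (right_surj (Zc p) K) with hπ
  have hk : ∀ x, x ∈ π.ker ↔ x.1.right = 1 := mem_resHom_ker _ _ _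
  refine ⟨_, _, π, π.ker, resHom_surj _ _ _, le_rfl, inferInstance, inferInstance, fun h0 => ?_,
    fun a ha b hb => Subtype.ext ?_, fun a ha => Subtype.ext ?_, fun z hz => ?_, fun E hE h1 => ?_⟩
  · obtain ⟨⟨l, hl⟩, hl1⟩ := Subgroup.ne_bot_iff_exists_ne_one.1 hb
    obtain ⟨r, r1, r2⟩ := res_over H (Zc p) l hl
    obtain ⟨c, c1, c2, c3, -⟩ := normal_proj _ r r1 (fun h => hl1 (Subtype.ext (r2.symm.trans h)))
      (Multiplicative.ofAdd 1)
    have : (⟨c, c1⟩ : res H.mem (Wr (Zc p) K)) ∈ π.ker := (hk _).2 c2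
    rw [h0] at this
    rw [show c = 1 from congrArg Subtype.val this] at c3
    exact t1 c3.symm
  · ext q
    · simp [(hk a).1 ha, (hk b).1 hb, mul_comm]
    · simp [(hk a).1 ha, (hk b).1 hb]
  · have := base_pow a.1 ((hk a).1 ha) p
    ext q
    · refine (congrFun this.1 q).trans ?_
      show Multiplicative.ofAdd (p • (a.1.left q).toAdd) = Multiplicative.ofAdd 0
      simp
    · exact this.2
  · rw [hk]
    show RegularWreathProduct.rightHom (z.1 ^ p) = 1
    rw [map_pow]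
    show z.1.right ^ p = 1
    by_cases hy : z.1.right = 1
    · rw [hy, one_pow]
    set t : Zc p := Multiplicative.ofAdd 1 with ht
    let c : res H.mem (Wr (Zc p) K) := ⟨sg (1 : K) t * z.1 * (sg (1 : K) t)⁻¹ * z.1⁻¹,
      Subgroup.mul_mem _ ((res_normal _ _).conj_mem _ z.2 _) (Subgroup.inv_mem _ z.2)⟩
    have c0 : c.1.right = 1 := cb_right _ _ rfl
    have c1 : ∀ y, c.1.left y =
        (sg (1 : K) t).left y * ((sg (1 : K) t).left (z.1.right⁻¹ * y))⁻¹ := fun y => by
      rw [show c.1.left y = _ from cb_left _ _ rfl y, mul_comm (z.1.left y), mul_inv_cancel_right]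
    have c2 : ∀ y, c.1.left y = c.1.left (z.1.right⁻¹ * y) := fun y => by
      have := congrFun (congrArg (fun w : res H.mem (Wr (Zc p) K) => w.1.left)
        (hz c ((hk _).2 c0))) y
      simpa [c0, mul_comm] using this
    have c3 := c2 z.1.right
    have c4 := c2 (z.1.right * z.1.right)
    rw [inv_mul_cancel_left] at c4
    rw [inv_mul_cancel, c1 1, mul_one, sg_self, sg_ne _ _ _ (inv_ne_one.2 hy), inv_one, mul_one] at c3
    have c5 := c1 z.1.right
    rw [c3, inv_mul_cancel, sg_self, sg_ne _ _ _ hy, one_mul] at c5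
    rw [c3, c1, inv_mul_cancel_left, sg_ne _ _ _ hy, inv_one, mul_one] at c4
    have c6 : z.1.right * z.1.right = 1 := by
      by_contra hne
      rw [sg_ne _ _ _ hne] at c4
      exact t1 c4.symm
    have c7 : ((2 : ℕ) : ZMod p) = 0 := by
      have : (1 : ZMod p) = -1 := congrArg Multiplicative.toAdd c5
      push_cast
      linear_combination this
    exact (congrArg (fun n : ℕ => z.1.right ^ n) ((Nat.prime_dvd_prime_iff_eq hp Nat.prime_two).1
      ((ZMod.natCast_eq_zero_iff _ _).1 c7))).trans ((pow_two _).trans c6)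
  · have : E = ⊤ := by
      by_contra hne
      obtain ⟨S, _, σ, s1, s2, s3⟩ := simple_quot E hne
      exact h1 S σ s1 s2 ⟨_, _, h, σ, s2⟩ s3
    rw [this]
    exact M.ok.iso Subgroup.topEquiv.symm h.2

lemma le2 {M H : NF} (hs : Sat (M * H).mem) : Le (M * H) (LL M H * H) := by
  intro G _ hG
  have := hG.1
  refine ⟨inferInstance, inferInstance, fun p hp hd => ?_⟩
  obtain ⟨C, _, c1, c2⟩ := gls _ hs hp hG (hd.trans (Subgroup.card_subgroup_dvd_card _))
  have hk : ∀ x : res H.mem G, resHom H (QuotientGroup.mk' C) (QuotientGroup.mk'_surjective C) x = 1 →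
      x.1 ∈ C := fun x hx => (QuotientGroup.eq_one_iff _).1 ((mem_resHom_ker _ _ _ _).1 hx)
  have h1 : lp M H p (res H.mem (G ⧸ C)) := by
    by_cases hb : res H.mem (G ⧸ C) = ⊥
    swap
    · exact lp_of hp c2 hb
    have : Subsingleton (res H.mem (G ⧸ C)) := by rw [hb]; infer_instance
    obtain ⟨_, J, j1, j2, j3⟩ := PN_sub ((res H.mem G).subtype.codRestrict C fun x =>
      hk x (Subsingleton.elim _ _)) (fun a b h => Subtype.ext (congrArg (fun x : C => x.1) h)) c1
    have := Fact.mk hp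
    obtain ⟨S, _, σ, s1, s2, s3⟩ := simple_quot J (by
      rintro rfl
      obtain ⟨x, hx⟩ := exists_prime_orderOf_dvd_card' p hd
      exact j2 x trivial (hx ▸ dvd_rfl))
    have := Finite.of_surjective σ s2
    have s4 : IsPGroup p S := fun y => by
      obtain ⟨x, rfl⟩ := s2 y
      obtain ⟨k, hk⟩ := j3 x
      exact ⟨k, by rw [← map_pow]; exact s3 hk⟩
    refine ⟨S, _, 1, ⊤, fun y => ⟨1, Subsingleton.elim _ _⟩, fun _ _ => rfl, inferInstance,
      inferInstance, top_ne_bot, fun a _ b _ => pg_comm hp s1 s4 a b, fun a _ => by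
        rw [← simple_card hp s1 s4]; exact pow_card_eq_one', fun _ _ => trivial, fun E hE _ => ?_⟩
    rcases s1.eq_bot_or_eq_top_of_normal E hE with rfl | rfl
    · exact M.triv _
    · exact M.ok.iso Subgroup.topEquiv.symm (M.ok.2.1 _ _ σ s2 hG.2)
  refine ⟨(phi_lp M H p).triv h1, inferInstance, PN_sub (((res H.mem G).subtype.comp
    (Subgroup.subtype _)).codRestrict C fun x => hk x.1 (res_le (LP M H p _) _
      (resHom_surj _ _ _) h1 x.2)) (fun a b h => Subtype.ext (Subtype.ext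
        (congrArg (fun x : C => x.1) h))) c1⟩

theorem fin_main {M H : NF} (hs : Sat (M * H).mem) : M * H = LL M H * H :=
  Le.anti (le2 hs) (le1 hs)

end Pool.Agent.H.MP_84bb83_al
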